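import Mathlib

namespace Pool.Agent.Helper667_Sidon

/-- Number of `v < 2 ^ N` in a fixed class after multiplication by an odd number. -/
theorem card_class (N m : ℕ) (hm : m ≤ N) (w0 : ℤ) (hw : Odd w0) (z0 : ℤ) :
    ((Finset.range (2^N)).filter (fun v : ℕ => (2:ℤ)^m ∣ (v:ℤ) * w0 - z0)).card ≤ 2^(N-m) := by
  have hmap : ∀ v ∈ (Finset.range (2^N)).filter (fun v : ℕ => (2:ℤ)^m ∣ (v:ℤ) * w0 - z0),
      v / 2^m ∈ Finset.range (2^(N-m)) := by
    intro v hv
    rw [Finset.mem_filter, Finset.mem_range] at hv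
    rw [Finset.mem_range, Nat.div_lt_iff_lt_mul (by positivity), ← pow_add,
      Nat.sub_add_cancel hm]
    exact hv.1
  have hinj : Set.InjOn (fun v : ℕ => v / 2^m)
      ((Finset.range (2^N)).filter (fun v : ℕ => (2:ℤ)^m ∣ (v:ℤ) * w0 - z0) : Finset ℕ) := by
    intro a ha b hb hab
    simp only [Finset.coe_filter, Set.mem_ofPred_eq] at ha hb
    have h1 : (2:ℤ)^m ∣ w0 * ((a:ℤ) - b) := by
      have := dvd_sub ha.2 hb.2
      have e : (a:ℤ) * w0 - z0 - ((b:ℤ) * w0 - z0) = w0 * ((a:ℤ) - b) := by ring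
      rwa [e] at this
    have hc : IsCoprime ((2:ℤ)^m) w0 := by
      have := (Int.prime_two.coprime_iff_not_dvd (n := w0)).mpr (by
        intro hd
        exact (Int.not_even_iff_odd.mpr hw) (even_iff_two_dvd.mpr hd))
      exact this.pow_left
    have h2 : (2:ℤ)^m ∣ (a:ℤ) - b := hc.dvd_of_dvd_mul_left h1
    have h3 : a ≡ b [MOD 2^m] := by
      have : (a:ℤ) ≡ b [ZMOD ((2^m : ℕ):ℤ)] := by
        rw [Int.modEq_iff_dvd]
        push_cast
        rw [← dvd_neg]; simpa using h2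
      exact (Int.natCast_modEq_iff).mp this
    have h4 : a % 2^m = b % 2^m := h3
    have h5 : a / 2^m = b / 2^m := hab
    calc a = 2^m * (a / 2^m) + a % 2^m := (Nat.div_add_mod a (2^m)).symm
      _ = 2^m * (b / 2^m) + b % 2^m := by rw [h4, h5]
      _ = b := Nat.div_add_mod b (2^m)
  calc _ ≤ (Finset.range (2^(N-m))).card := Finset.card_le_card_of_injOn _ hmap hinj
    _ = 2^(N-m) := Finset.card_range _

open scoped Classical in
/-- For `w` not divisible by `2 ^ k`, few odd `v` make `v * w` close to `0` modulo `2 ^ k`. -/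
theorem card_close (N k : ℕ) (hk : k ≤ N) (w : ℤ) (hw : ¬ (2:ℤ)^k ∣ w) (S : ℕ) :
    ((Finset.range (2^N)).filter
      (fun v : ℕ => v % 2 = 1 ∧ ∃ z : ℤ, |z| < S ∧ (2:ℤ)^k ∣ (v:ℤ) * w - z)).card
      ≤ 2 * S * 2^(N-k) := by
  classical
  have hw0 : w ≠ 0 := by rintro rfl; exact hw (dvd_zero _)
  obtain ⟨r, w0, hodd, hr⟩ : ∃ r : ℕ, ∃ w0 : ℤ, Odd w0 ∧ w = 2^r * w0 := by
    obtain ⟨r, w0, h1, h2⟩ := Nat.exists_eq_two_pow_mul_odd (n := w.natAbs) (by simpa using hw0)
    rcases Int.natAbs_eq w with h | h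
    · exact ⟨r, w0, by exact_mod_cast h1, by rw [h, h2]; push_cast; ring⟩
    · exact ⟨r, -w0, by rw [odd_neg]; exact_mod_cast h1, by rw [h, h2]; push_cast; ring⟩
  have hrk : r < k := by
    by_contra hcon
    push Not at hcon
    exact hw (by rw [hr]; exact Dvd.dvd.mul_right (pow_dvd_pow _ hcon) _)
  set q : ℕ := S / 2^r with hq
  set Z : Finset ℤ := (Finset.Icc (-(q:ℤ)) q).erase 0 with hZ
  have hsub : (Finset.range (2^N)).filter
      (fun v : ℕ => v % 2 = 1 ∧ ∃ z : ℤ, |z| < S ∧ (2:ℤ)^k ∣ (v:ℤ) * w - z) ⊆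
      Z.biUnion (fun z0 => (Finset.range (2^N)).filter
        (fun v : ℕ => (2:ℤ)^(k-r) ∣ (v:ℤ) * w0 - z0)) := by
    intro v hv
    rw [Finset.mem_filter] at hv
    obtain ⟨hvN, hvodd, z, hzS, hz⟩ := hv
    have hkr : (2:ℤ)^k = 2^r * 2^(k-r) := by rw [← pow_add]; congr 1; omega
    have hz2 : (2:ℤ)^r ∣ z := by
      have h1 : (2:ℤ)^r ∣ (v:ℤ) * w - z := dvd_trans (by rw [hkr]; exact Dvd.intro _ rfl) hz
      have h2 : (2:ℤ)^r ∣ (v:ℤ) * w := by
        rw [hr]; exact ⟨v * w0, by ring⟩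
      have := dvd_sub h2 h1
      simpa using this
    obtain ⟨z0, hz0⟩ := hz2
    have h3 : (2:ℤ)^(k-r) ∣ (v:ℤ) * w0 - z0 := by
      have : (2:ℤ)^r * 2^(k-r) ∣ 2^r * ((v:ℤ) * w0 - z0) := by
        rw [← hkr]
        have e : (2:ℤ)^r * ((v:ℤ) * w0 - z0) = (v:ℤ) * w - z := by rw [hr, hz0]; ring
        rw [e]; exact hz
      exact (mul_dvd_mul_iff_left (by positivity)).mp this
    have hne : z0 ≠ 0 := by
      rintro rfl
      have h4 : (2:ℤ) ∣ (v:ℤ) * w0 := by
        have := dvd_trans (dvd_pow_self (2:ℤ) (by omega : k - r ≠ 0)) h3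
        simpa using this
      have h5 : Odd ((v:ℤ) * w0) := by
        apply Odd.mul _ hodd
        have : Odd v := Nat.odd_iff.mpr hvodd
        exact_mod_cast this
      exact (Int.not_even_iff_odd.mpr h5) (even_iff_two_dvd.mpr h4)
    have hb : |z0| ≤ q := by
      have h6 : |z0| * 2^r < S := by
        have : |z| = |z0| * 2^r := by rw [hz0, abs_mul, abs_of_pos (by positivity)]; ring
        rw [← this]; exact hzS
      have h7 : z0.natAbs * 2^r < S := by
        have : ((z0.natAbs * 2^r : ℕ):ℤ) < S := by push_cast; exact h6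
        exact_mod_cast this
      have h8 : z0.natAbs ≤ q := by
        rw [hq, Nat.le_div_iff_mul_le (by positivity)]
        exact h7.le
      rw [Int.abs_eq_natAbs]
      exact_mod_cast h8
    rw [Finset.mem_biUnion]
    refine ⟨z0, ?_, ?_⟩
    · rw [hZ, Finset.mem_erase, Finset.mem_Icc]
      exact ⟨hne, abs_le.mp hb⟩
    · rw [Finset.mem_filter]
      exact ⟨hvN, h3⟩
  have hZc : Z.card = 2 * q := by
    rw [hZ, Finset.card_erase_of_mem (by rw [Finset.mem_Icc]; constructor <;> simp)]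
    rw [Int.card_Icc]
    omega
  calc _ ≤ _ := Finset.card_le_card hsub
    _ ≤ ∑ z0 ∈ Z, ((Finset.range (2^N)).filter
        (fun v : ℕ => (2:ℤ)^(k-r) ∣ (v:ℤ) * w0 - z0)).card := Finset.card_biUnion_le
    _ ≤ ∑ z0 ∈ Z, 2^(N-(k-r)) :=
        Finset.sum_le_sum (fun z0 _ => card_class N (k-r) (by omega) w0 hodd z0)
    _ = 2 * (q * 2^r) * 2^(N-k) := by
        rw [Finset.sum_const, hZc, smul_eq_mul]
        have : N - (k - r) = r + (N - k) := by omega
        rw [this, pow_add]; ring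
    _ ≤ 2 * S * 2^(N-k) := by
        gcongr
        exact Nat.div_mul_le_self S (2^r)

end Pool.Agent.Helper667_Sidon
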