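import Pool.Agent.Helper667_Sidon.Count

namespace Pool.Agent.Helper667_Sidon

/-- Sidon property: representation as a sum of an ordered pair is unique. -/
def IsSid (A : Set ℕ) : Prop :=
  ∀ a ∈ A, ∀ b ∈ A, ∀ c ∈ A, ∀ d ∈ A, a ≤ b → c ≤ d → a + b = c + d → a = c ∧ b = d

/-- Compactness: from finite approximations to an infinite Sidon set. -/
theorem compact (N c : ℕ → ℕ)
    (h : ∀ J : ℕ, ∃ A : Set ℕ, 0 ∉ A ∧ IsSid A ∧ ∀ j ≤ J, c j ≤ (A ∩ Set.Icc 1 (N j)).ncard) :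
    ∃ A : Set ℕ, 0 ∉ A ∧ IsSid A ∧ ∀ j, c j ≤ (A ∩ Set.Icc 1 (N j)).ncard := by
  choose A h0 hS hc using h
  let F : Filter ℕ := Filter.hyperfilter ℕ
  let B : Set ℕ := {n | ∀ᶠ J in F, n ∈ A J}
  have hneg : ∀ n, n ∉ B → ∀ᶠ J in F, n ∉ A J := by
    intro n hn
    have : ¬ ∀ᶠ J in F, n ∈ A J := hn
    exact Ultrafilter.eventually_not.mpr this
  refine ⟨B, ?_, ?_, ?_⟩
  · intro hB
    have hB' : ∀ᶠ J in F, 0 ∈ A J := hB
    obtain ⟨J, hJ⟩ := hB'.exists
    exact h0 J hJ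
  · intro a ha b hb c hc d hd hab hcd heq
    have ha' : ∀ᶠ J in F, a ∈ A J := ha
    have hb' : ∀ᶠ J in F, b ∈ A J := hb
    have hc' : ∀ᶠ J in F, c ∈ A J := hc
    have hd' : ∀ᶠ J in F, d ∈ A J := hd
    obtain ⟨J, ⟨h1, h2⟩, h3, h4⟩ := ((ha'.and hb').and (hc'.and hd')).exists
    exact hS J a h1 b h2 c h3 d h4 hab hcd heq
  · intro j
    have hfin : ∀ᶠ J in F, ∀ n ∈ Set.Icc 1 (N j), (n ∈ B ↔ n ∈ A J) := by
      rw [Filter.eventually_all_finite (Set.finite_Icc 1 (N j))]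
      intro n _
      by_cases hn : n ∈ B
      · have hn' : ∀ᶠ J in F, n ∈ A J := hn
        filter_upwards [hn'] with J hJ
        exact ⟨fun _ => hJ, fun _ => hn⟩
      · filter_upwards [hneg n hn] with J hJ
        exact ⟨fun h => absurd h hn, fun h => absurd h hJ⟩
    have hge : ∀ᶠ J in F, j ≤ J := by
      have : ∀ᶠ J in Filter.cofinite, j ≤ J := by
        rw [Nat.cofinite_eq_atTop]
        exact Filter.eventually_ge_atTop j
      exact Filter.hyperfilter_le_cofinite this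
    obtain ⟨J, hJ, hjJ⟩ := (hfin.and hge).exists
    have : B ∩ Set.Icc 1 (N j) = A J ∩ Set.Icc 1 (N j) := by
      ext n
      constructor
      · rintro ⟨h1, h2⟩; exact ⟨(hJ n h2).mp h1, h2⟩
      · rintro ⟨h1, h2⟩; exact ⟨(hJ n h2).mpr h1, h2⟩
    rw [this]
    exact hc J j hjJ

namespace Scales

variable (D : Scales)

theorem finite_stage (J : ℕ) (hJ : 1 ≤ D.k J)
    (hsum : ∑ j ∈ Finset.range (J+1), D.eta j < 1/4) :
    ∃ A : Set ℕ, 0 ∉ A ∧ IsSid A ∧
      ∀ j ≤ J, ((D.P j).card + 1) / 2 ≤ (A ∩ Set.Icc 1 (3 * D.S j)).ncard := by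
  classical
  obtain ⟨e, he⟩ := exists_dlog_fun (D.k J)
  obtain ⟨v, hv, hbad⟩ := D.exists_v J hJ e he hsum
  let A : Set ℕ := {n | ∃ j ≤ J, ∃ p ∈ D.P j, p ∉ D.Bad e v j ∧ n = D.b e v j p}
  have hb0 : ∀ j p, 0 < D.b e v j p := by
    intro j p
    have := D.b_ge e v j p
    have := D.S_pos j
    omega
  refine ⟨A, ?_, ?_, ?_⟩
  · rintro ⟨j, _, p, _, _, h⟩
    have := hb0 j p
    omega
  · -- Sidon
    have main : ∀ n1 ∈ A, ∀ n2 ∈ A, ∀ n3 ∈ A, ∀ n4 ∈ A, n1 + n2 = n3 + n4 →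
        (n1 = n3 ∧ n2 = n4) ∨ (n1 = n4 ∧ n2 = n3) := by
      rintro n1 ⟨j1, hj1, p, hp, hpB, rfl⟩ n2 ⟨j2, hj2, q, hq, hqB, rfl⟩
        n3 ⟨j3, hj3, r, hr, hrB, rfl⟩ n4 ⟨j4, hj4, s, hs, hsB, rfl⟩ heq
      rcases le_total j2 j1 with h21 | h21 <;> rcases le_total j4 j3 with h43 | h43
      · exact D.sidon_ord e he v hv hj1 hj3 h21 h43 hp hq hr hs hpB heq
      · have := D.sidon_ord e he v hv hj1 hj4 h21 h43 hp hq hs hr hpB (by omega)
        tauto
      · have := D.sidon_ord e he v hv hj2 hj3 h21 h43 hq hp hr hs hqB (by omega)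
        tauto
      · have := D.sidon_ord e he v hv hj2 hj4 h21 h43 hq hp hs hr hqB (by omega)
        tauto
    intro a ha b hb c hc d hd hab hcd heq
    rcases main a ha b hb c hc d hd heq with h | ⟨h1, h2⟩
    · exact h
    · constructor <;> omega
  · intro j hj
    have hinj : Set.InjOn (fun p => D.b e v j p) ((D.P j \ D.Bad e v j : Finset ℕ) : Set ℕ) := by
      intro p hp q hq hpq
      simp only [Finset.coe_sdiff, Set.mem_sdiff, Finset.mem_coe] at hp hq
      -- same argument modulo 2^k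
      by_contra hne
      apply D.exp_ne (D.kmono hj) e he hp.1 hq.1 hne
      have m1 := D.b_mod2 e v j p
      have m2 := D.b_mod2 e v j q
      have hpq' : D.b e v j p = D.b e v j q := hpq
      rw [hpq'] at m1
      have h3 : (2:ℤ)^(D.k j) ∣ (v:ℤ) * ((e p : ℤ) - e q) := by
        have e1 : (v:ℤ) * ((e p : ℤ) - e q) =
          ((D.b e v j q : ℤ) - v * e q) - ((D.b e v j q : ℤ) - v * e p) := by ring
        rw [e1]
        exact dvd_sub m2 m1
      have hvodd : Odd (v:ℤ) := by exact_mod_cast Nat.odd_iff.mpr hv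
      have hc : IsCoprime ((2:ℤ)^(D.k j)) (v:ℤ) := by
        have := (Int.prime_two.coprime_iff_not_dvd (n := (v:ℤ))).mpr (by
          intro hd
          exact (Int.not_even_iff_odd.mpr hvodd) (even_iff_two_dvd.mpr hd))
        exact this.pow_left
      exact hc.dvd_of_dvd_mul_left h3
    have hsub : ((D.P j \ D.Bad e v j).image (fun p => D.b e v j p) : Set ℕ) ⊆
        A ∩ Set.Icc 1 (3 * D.S j) := by
      intro n hn
      simp only [Finset.coe_image, Set.mem_image, Finset.coe_sdiff, Set.mem_sdiff,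
        Finset.mem_coe] at hn
      obtain ⟨p, ⟨hp, hpB⟩, rfl⟩ := hn
      refine ⟨⟨j, hj, p, hp, hpB, rfl⟩, ?_⟩
      rw [Set.mem_Icc]
      exact ⟨hb0 j p, (D.b_lt e v j p).le⟩
    have hfin : (A ∩ Set.Icc 1 (3 * D.S j)).Finite :=
      (Set.finite_Icc 1 (3 * D.S j)).subset Set.inter_subset_right
    have h1 := Set.ncard_le_ncard hsub hfin
    rw [Set.ncard_coe_finset] at h1
    have h2 : ((D.P j \ D.Bad e v j).image (fun p => D.b e v j p)).card =
        (D.P j \ D.Bad e v j).card := Finset.card_image_of_injOn hinj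
    have hsubB : D.Bad e v j ⊆ D.P j := by
      unfold Bad; exact Finset.filter_subset _ _
    have h3 : (D.P j \ D.Bad e v j).card = (D.P j).card - (D.Bad e v j).card :=
      Finset.card_sdiff_of_subset hsubB
    have := hbad j hj
    omega

/-- The infinite Sidon set attached to the data. -/
theorem exists_infinite (hk : ∀ j, 1 ≤ D.k j)
    (hsum : ∀ J, ∑ j ∈ Finset.range (J+1), D.eta j < 1/4) :
    ∃ A : Set ℕ, 0 ∉ A ∧ IsSid A ∧
      ∀ j, ((D.P j).card + 1) / 2 ≤ (A ∩ Set.Icc 1 (3 * D.S j)).ncard := by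
  apply compact (fun j => 3 * D.S j) (fun j => ((D.P j).card + 1) / 2)
  intro J
  exact D.finite_stage J (hk J) (hsum J)

end Scales

end Pool.Agent.Helper667_Sidon
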