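import Pool.Agent.Helper667_Sidon.Dlog
import Pool.Agent.Helper667_Sidon.Avg

namespace Pool.Agent.Helper667_Sidon

/-- The combinatorial data: scales `j`, prime sets `P j`, bit sizes `k j`, prime size exponents
`u j`, label widths `w j` and labels `L j`. -/
structure Scales where
  P : ℕ → Finset ℕ
  k : ℕ → ℕ
  u : ℕ → ℕ
  w : ℕ → ℕ
  L : ℕ → ℕ
  prime : ∀ j, ∀ p ∈ P j, p.Prime
  odd : ∀ j, ∀ p ∈ P j, p % 2 = 1
  le : ∀ j, ∀ p ∈ P j, p ≤ 2^(u j)
  disj : ∀ i j, i ≠ j → Disjoint (P i) (P j)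
  huk : ∀ j, 2 * u j ≤ k j
  kmono : Monotone k
  wmono : Monotone w
  hS : ∀ i j, i < j → 4 * (2^(k i) * 3^(w i)) ≤ 2^(k j) * 3^(w j)
  hL : ∀ i j, i < j → ¬ (L i ≡ L j [MOD 3^(w i)])

namespace Scales

variable (D : Scales)

/-- total modulus of scale `j`. -/
def S (j : ℕ) : ℕ := 2^(D.k j) * 3^(D.w j)

theorem S_pos (j : ℕ) : 0 < D.S j := by unfold S; positivity

theorem S_lt {i j : ℕ} (h : i < j) : 4 * D.S i ≤ D.S j := D.hS i j h

theorem cop (j : ℕ) : Nat.Coprime (2^(D.k j)) (3^(D.w j)) :=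
  Nat.Coprime.pow _ _ (by norm_num)

/-- the element attached to the prime `p` at scale `j`. -/
def b (e : ℕ → ℕ) (v j p : ℕ) : ℕ :=
  2 * D.S j + (Nat.chineseRemainder (D.cop j) (v * e p) (D.L j) : ℕ)

theorem b_ge (e : ℕ → ℕ) (v j p : ℕ) : 2 * D.S j ≤ D.b e v j p := Nat.le_add_right _ _

theorem b_lt (e : ℕ → ℕ) (v j p : ℕ) : D.b e v j p < 3 * D.S j := by
  unfold b
  have := Nat.chineseRemainder_lt_mul (D.cop j) (v * e p) (D.L j) (by positivity) (by positivity)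
  have h2 : 2^(D.k j) * 3^(D.w j) = D.S j := rfl
  omega

theorem b_mod2 (e : ℕ → ℕ) (v j p : ℕ) : (2:ℤ)^(D.k j) ∣ (D.b e v j p : ℤ) - (v:ℤ) * e p := by
  have h := (Nat.chineseRemainder (D.cop j) (v * e p) (D.L j)).2.1
  have h1 : ((v * e p : ℕ):ℤ) ≡ ((Nat.chineseRemainder (D.cop j) (v * e p) (D.L j) : ℕ):ℤ)
    [ZMOD ((2^(D.k j) : ℕ):ℤ)] := (Int.natCast_modEq_iff).mpr h.symm
  rw [Int.modEq_iff_dvd] at h1
  unfold b S
  push_cast at h1 ⊢
  have e1 : (2 * (2^(D.k j) * 3^(D.w j)) +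
      ((Nat.chineseRemainder (D.cop j) (v * e p) (D.L j) : ℕ):ℤ)) - (v:ℤ) * e p =
      2^(D.k j) * (2 * 3^(D.w j)) +
      (((Nat.chineseRemainder (D.cop j) (v * e p) (D.L j) : ℕ):ℤ) - (v:ℤ) * e p) := by ring
  rw [e1]
  exact dvd_add (Dvd.intro _ rfl) h1

theorem b_mod3 (e : ℕ → ℕ) (v j p : ℕ) : (3:ℤ)^(D.w j) ∣ (D.b e v j p : ℤ) - (D.L j : ℤ) := by
  have h := (Nat.chineseRemainder (D.cop j) (v * e p) (D.L j)).2.2
  have h1 : ((D.L j : ℕ):ℤ) ≡ ((Nat.chineseRemainder (D.cop j) (v * e p) (D.L j) : ℕ):ℤ)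
    [ZMOD ((3^(D.w j) : ℕ):ℤ)] := (Int.natCast_modEq_iff).mpr h.symm
  rw [Int.modEq_iff_dvd] at h1
  unfold b S
  push_cast at h1 ⊢
  have e1 : (2 * (2^(D.k j) * 3^(D.w j)) +
      ((Nat.chineseRemainder (D.cop j) (v * e p) (D.L j) : ℕ):ℤ)) - (D.L j : ℤ) =
      3^(D.w j) * (2 * 2^(D.k j)) +
      (((Nat.chineseRemainder (D.cop j) (v * e p) (D.L j) : ℕ):ℤ) - (D.L j : ℤ)) := by ring
  rw [e1]
  exact dvd_add (Dvd.intro _ rfl) h1

open scoped Classical in
/-- the primes to be deleted at scale `j`. -/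
noncomputable def Bad (e : ℕ → ℕ) (v j : ℕ) : Finset ℕ :=
  (D.P j).filter (fun x => ∃ x' ∈ D.P j, x ≠ x' ∧ ∃ i < j, D.k i + 1 ≤ D.u j + D.u i ∧
    (∃ y ∈ D.P i, ∃ y' ∈ D.P i,
      (2:ℤ)^(D.k i + 2) ∣ sgn4 x * sgn4 y - sgn4 x' * sgn4 y') ∧
    ∃ z : ℤ, |z| < (D.S i : ℤ) ∧ (2:ℤ)^(D.k j) ∣ (v:ℤ) * ((e x : ℤ) - e x') - z)

/-- products of two primes. -/
theorem prime_pair {p q r s : ℕ} (hp : p.Prime) (hr : r.Prime) (hs : s.Prime)
    (h : p * q = r * s) : (p = r ∧ q = s) ∨ (p = s ∧ q = r) := by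
  have h1 : p ∣ r * s := ⟨q, h.symm⟩
  rcases (Nat.Prime.dvd_mul hp).mp h1 with h2 | h2
  · left
    have h3 : p = r := (Nat.prime_dvd_prime_iff_eq hp hr).mp h2
    refine ⟨h3, ?_⟩
    subst h3
    exact Nat.eq_of_mul_eq_mul_left hp.pos h
  · right
    have h3 : p = s := (Nat.prime_dvd_prime_iff_eq hp hs).mp h2
    refine ⟨h3, ?_⟩
    subst h3
    rw [mul_comm r p] at h
    exact Nat.eq_of_mul_eq_mul_left hp.pos h

theorem abs_mul_le {j i x y : ℕ} (hx : x ∈ D.P j) (hy : y ∈ D.P i) :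
    |sgn4 x * sgn4 y| ≤ 2^(D.u j + D.u i) := by
  rw [abs_mul, abs_sgn4, abs_sgn4, pow_add]
  have h1 : (x:ℤ) ≤ 2^(D.u j) := by exact_mod_cast D.le j x hx
  have h2 : (y:ℤ) ≤ 2^(D.u i) := by exact_mod_cast D.le i y hy
  gcongr

theorem eq_of_dvd_of_small {m : ℕ} {a c : ℤ} {B : ℤ} (ha : |a| ≤ B) (hc : |c| ≤ B)
    (hB : 2 * B < 2^m) (h : (2:ℤ)^m ∣ a - c) : a = c := by
  have h1 : |a - c| < 2^m := by
    calc |a - c| ≤ |a| + |c| := abs_sub _ _
      _ ≤ 2 * B := by linarith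
      _ < _ := hB
  have := Int.eq_zero_of_abs_lt_dvd h h1
  linarith

theorem mul_eq_of_sgn {p q r s : ℕ} (h : sgn4 p * sgn4 q = sgn4 r * sgn4 s) :
    p * q = r * s := by
  have := congrArg Int.natAbs h
  simpa [Int.natAbs_mul, natAbs_sgn4] using this

/-- Sidon property with ordered scales. -/
theorem sidon_ord {J : ℕ} (e : ℕ → ℕ)
    (he : ∀ p : ℕ, p % 2 = 1 → (2:ℤ)^(D.k J + 2) ∣ (5:ℤ)^(e p) - sgn4 p)
    (v : ℕ) (hv : v % 2 = 1) {j1 j2 j3 j4 p q r s : ℕ}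
    (h1J : j1 ≤ J) (h3J : j3 ≤ J)
    (h21 : j2 ≤ j1) (h43 : j4 ≤ j3)
    (hp : p ∈ D.P j1) (hq : q ∈ D.P j2) (hr : r ∈ D.P j3) (hs : s ∈ D.P j4)
    (hpB : p ∉ D.Bad e v j1)
    (h : D.b e v j1 p + D.b e v j2 q = D.b e v j3 r + D.b e v j4 s) :
    (D.b e v j1 p = D.b e v j3 r ∧ D.b e v j2 q = D.b e v j4 s) ∨
    (D.b e v j1 p = D.b e v j4 s ∧ D.b e v j2 q = D.b e v j3 r) := by
  have hvodd : Odd (v:ℤ) := by exact_mod_cast Nat.odd_iff.mpr hv
  have g1 := D.b_ge e v j1 p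
  have g2 := D.b_ge e v j2 q
  have g3 := D.b_ge e v j3 r
  have g4 := D.b_ge e v j4 s
  have l1 := D.b_lt e v j1 p
  have l2 := D.b_lt e v j2 q
  have l3 := D.b_lt e v j3 r
  have l4 := D.b_lt e v j4 s
  have Sle : ∀ {a c : ℕ}, a ≤ c → D.S a ≤ D.S c := by
    intro a c hac
    rcases hac.eq_or_lt with h | h
    · rw [h]
    · have := D.S_lt h; omega
  have h13 : j1 = j3 := by
    rcases lt_trichotomy j1 j3 with hlt | heq | hgt
    · have := D.S_lt hlt
      have := Sle h21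
      have := D.S_pos j1
      omega
    · exact heq
    · have := D.S_lt hgt
      have := Sle h43
      have := D.S_pos j3
      omega
  subst h13
  have hpo := D.odd _ p hp
  have hqo := D.odd _ q hq
  have hro := D.odd _ r hr
  have hso := D.odd _ s hs
  have m1 := D.b_mod2 e v j1 p
  have m3 := D.b_mod2 e v j1 r
  have m2 := D.b_mod2 e v j2 q
  have m4 := D.b_mod2 e v j4 s
  have hZ : (D.b e v j1 p : ℤ) + D.b e v j2 q = D.b e v j1 r + D.b e v j4 s := by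
    exact_mod_cast h
  rcases h21.eq_or_lt with h21e | h21l
  · -- all at the top scale
    have h41 : j4 = j1 := by
      rcases h43.eq_or_lt with h | h
      · exact h
      · exfalso
        subst h21e
        have := D.S_lt h
        have := D.S_pos j4
        omega
    subst h21e
    rw [h41] at hs m4 hZ ⊢
    have hd : (2:ℤ)^(D.k j2) ∣ ((v:ℤ) * e p + v * e q) - ((v:ℤ) * e r + v * e s) := by
      have e1 : ((v:ℤ) * e p + v * e q) - ((v:ℤ) * e r + v * e s) =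
        -((D.b e v j2 p : ℤ) - v * e p) - ((D.b e v j2 q : ℤ) - v * e q)
        + ((D.b e v j2 r : ℤ) - v * e r) + ((D.b e v j2 s : ℤ) - v * e s) := by
        linear_combination hZ
      rw [e1]
      exact dvd_add (dvd_add (dvd_sub (dvd_neg.mpr m1) m2) m3) m4
    have hprod := dlog_transfer (D.kmono h1J) e he hvodd hpo hqo hro hso hd
    have hB : 2 * (2:ℤ)^(D.u j2 + D.u j2) < 2^(D.k j2 + 2) := by
      have := D.huk j2
      calc 2 * (2:ℤ)^(D.u j2 + D.u j2) = 2^(D.u j2 + D.u j2 + 1) := by ring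
        _ < 2^(D.k j2 + 2) := pow_lt_pow_right₀ (by norm_num) (by omega)
    have heq := eq_of_dvd_of_small (D.abs_mul_le hp hq) (D.abs_mul_le hr hs) hB hprod
    have := mul_eq_of_sgn heq
    rcases prime_pair (D.prime _ p hp) (D.prime _ r hr) (D.prime _ s hs) this with
      ⟨ha, hb⟩ | ⟨ha, hb⟩
    · left; rw [ha, hb]; exact ⟨rfl, rfl⟩
    · right; rw [ha, hb]; exact ⟨rfl, rfl⟩
  · have h41l : j4 < j1 := by
      rcases h43.eq_or_lt with h | h
      · exfalso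
        subst h
        have := D.S_lt h21l
        have := D.S_pos j2
        omega
      · exact h
    -- labels
    have n1 := D.b_mod3 e v j1 p
    have n3 := D.b_mod3 e v j1 r
    have n2 := D.b_mod3 e v j2 q
    have n4 := D.b_mod3 e v j4 s
    have hlab : ∀ m : ℕ, m ≤ D.w j2 → m ≤ D.w j4 → D.L j2 ≡ D.L j4 [MOD 3^m] := by
      intro m hm2 hm4
      have hm1 : m ≤ D.w j1 := hm2.trans (D.wmono h21)
      have d1 := (pow_dvd_pow (3:ℤ) hm1).trans n1
      have d3 := (pow_dvd_pow (3:ℤ) hm1).trans n3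
      have d2 := (pow_dvd_pow (3:ℤ) hm2).trans n2
      have d4 := (pow_dvd_pow (3:ℤ) hm4).trans n4
      have : (3:ℤ)^m ∣ (D.L j4 : ℤ) - D.L j2 := by
        have e1 : (D.L j4 : ℤ) - D.L j2 =
          ((D.b e v j2 q : ℤ) - D.L j2) - ((D.b e v j4 s : ℤ) - D.L j4)
          + ((D.b e v j1 p : ℤ) - D.L j1) - ((D.b e v j1 r : ℤ) - D.L j1) := by
          linear_combination -hZ
        rw [e1]
        exact dvd_sub (dvd_add (dvd_sub d2 d4) d1) d3
      have h2 : ((D.L j2 : ℕ):ℤ) ≡ D.L j4 [ZMOD ((3^m : ℕ):ℤ)] := by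
        rw [Int.modEq_iff_dvd]; push_cast; exact this
      exact (Int.natCast_modEq_iff).mp h2
    have h24 : j2 = j4 := by
      rcases lt_trichotomy j2 j4 with hlt | heq | hgt
      · exact absurd (hlab _ le_rfl (D.wmono hlt.le)) (D.hL j2 j4 hlt)
      · exact heq
      · exact absurd (hlab _ (D.wmono hgt.le) le_rfl).symm (D.hL j4 j2 hgt)
    subst h24
    by_cases hpr : p = r
    · left
      subst hpr
      refine ⟨rfl, by omega⟩
    exfalso
    have hk21 : D.k j2 ≤ D.k j1 := D.kmono h21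
    have hd : (2:ℤ)^(D.k j2) ∣ ((v:ℤ) * e p + v * e q) - ((v:ℤ) * e r + v * e s) := by
      have e1 : ((v:ℤ) * e p + v * e q) - ((v:ℤ) * e r + v * e s) =
        -((D.b e v j1 p : ℤ) - v * e p) - ((D.b e v j2 q : ℤ) - v * e q)
        + ((D.b e v j1 r : ℤ) - v * e r) + ((D.b e v j2 s : ℤ) - v * e s) := by
        linear_combination hZ
      rw [e1]
      have m1' := (pow_dvd_pow (2:ℤ) hk21).trans m1
      have m3' := (pow_dvd_pow (2:ℤ) hk21).trans m3
      exact dvd_add (dvd_add (dvd_sub (dvd_neg.mpr m1') m2) m3') m4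
    have hprod := dlog_transfer (hk21.trans (D.kmono h1J)) e he hvodd hpo hqo hro hso hd
    by_cases hdang : D.k j2 + 1 ≤ D.u j1 + D.u j2
    · apply hpB
      simp only [Bad, Finset.mem_filter]
      refine ⟨hp, r, hr, hpr, j2, h21l, hdang, ⟨q, hq, s, hs, hprod⟩,
        (D.b e v j2 s : ℤ) - D.b e v j2 q, ?_, ?_⟩
      · rw [abs_lt]
        constructor
        · have : D.b e v j2 q < D.S j2 + D.b e v j2 s := by omega
          have : (D.b e v j2 q : ℤ) < D.S j2 + D.b e v j2 s := by exact_mod_cast this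
          linarith
        · have : D.b e v j2 s < D.S j2 + D.b e v j2 q := by omega
          have : (D.b e v j2 s : ℤ) < D.S j2 + D.b e v j2 q := by exact_mod_cast this
          linarith
      · have e1 : (v:ℤ) * ((e p : ℤ) - e r) - ((D.b e v j2 s : ℤ) - D.b e v j2 q)
          = -((D.b e v j1 p : ℤ) - v * e p) + ((D.b e v j1 r : ℤ) - v * e r) := by
          linear_combination hZ
        rw [e1]
        exact dvd_add (dvd_neg.mpr m1) m3
    · push Not at hdang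
      have hB : 2 * (2:ℤ)^(D.u j1 + D.u j2) < 2^(D.k j2 + 2) := by
        calc 2 * (2:ℤ)^(D.u j1 + D.u j2) = 2^(D.u j1 + D.u j2 + 1) := by ring
          _ < 2^(D.k j2 + 2) := pow_lt_pow_right₀ (by norm_num) (by omega)
      have heq := eq_of_dvd_of_small (D.abs_mul_le hp hq) (D.abs_mul_le hr hs) hB hprod
      have := mul_eq_of_sgn heq
      rcases prime_pair (D.prime _ p hp) (D.prime _ r hr) (D.prime _ s hs) this with
        ⟨ha, hb⟩ | ⟨ha, hb⟩
      · exact hpr ha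
      · have hdis := D.disj j1 j2 (by omega)
        rw [Finset.disjoint_left] at hdis
        exact hdis hp (ha ▸ hs)

end Scales

end Pool.Agent.Helper667_Sidon
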