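import Pool.Agent.Helper667_Sidon.Core

namespace Pool.Agent.Helper667_Sidon

namespace Scales

variable (D : Scales)

open scoped Classical in
/-- quadruples `(x, x', y, y')` responsible for bad coincidences. -/
noncomputable def Quad (j i : ℕ) : Finset (ℕ × ℕ × ℕ × ℕ) :=
  (D.P j ×ˢ D.P j ×ˢ D.P i ×ˢ D.P i).filter (fun t => t.1 ≠ t.2.1 ∧
     (2:ℤ)^(D.k i + 2) ∣ sgn4 t.1 * sgn4 t.2.2.1 - sgn4 t.2.1 * sgn4 t.2.2.2)

theorem card_Quad {i j : ℕ} (hij : i < j) (hd : D.k i + 1 ≤ D.u j + D.u i) :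
    (D.Quad j i).card ≤ (D.P j).card * (D.P i).card * 2^(D.u j + D.u i - D.k i) := by
  classical
  set T : ℕ := 2^(D.u j + D.u i - D.k i - 1) with hT
  set Z : Finset ℤ := (Finset.Icc (-(T:ℤ)) T).erase 0 with hZ
  have hZc : Z.card = 2^(D.u j + D.u i - D.k i) := by
    rw [hZ, Finset.card_erase_of_mem (by rw [Finset.mem_Icc]; constructor <;> simp)]
    rw [Int.card_Icc]
    have : 2^(D.u j + D.u i - D.k i) = 2 * T := by
      rw [hT, ← pow_succ']; congr 1; omega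
    omega
  have hdis := D.disj j i (by omega)
  rw [Finset.disjoint_left] at hdis
  let f : ℕ × ℕ × ℕ × ℕ → ℕ × ℕ × ℤ := fun t =>
    (t.1, t.2.2.1, (sgn4 t.1 * sgn4 t.2.2.1 - sgn4 t.2.1 * sgn4 t.2.2.2) / 2^(D.k i + 2))
  have hmap : ∀ t ∈ D.Quad j i, f t ∈ D.P j ×ˢ D.P i ×ˢ Z := by
    rintro ⟨x, x', y, y'⟩ ht
    simp only [Quad, Finset.mem_filter, Finset.mem_product] at ht
    obtain ⟨⟨hx, hx', hy, hy'⟩, hne, t, ht⟩ := ht
    have hft : f (x, x', y, y') = (x, y, t) := by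
      simp only [f]
      rw [ht, Int.mul_ediv_cancel_left _ (by positivity)]
    rw [hft]
    simp only [Finset.mem_product]
    refine ⟨hx, hy, ?_⟩
    rw [hZ, Finset.mem_erase, Finset.mem_Icc]
    constructor
    · rintro rfl
      have h0 : sgn4 x * sgn4 y = sgn4 x' * sgn4 y' := by linarith
      rcases prime_pair (D.prime _ x hx) (D.prime _ x' hx') (D.prime _ y' hy')
        (mul_eq_of_sgn h0) with ⟨h, _⟩ | ⟨h, _⟩
      · exact hne h
      · exact hdis hx (h ▸ hy')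
    · rw [← abs_le]
      have h1 : |sgn4 x * sgn4 y - sgn4 x' * sgn4 y'| ≤ 2 * 2^(D.u j + D.u i) := by
        have a1 := D.abs_mul_le hx hy
        have a2 := D.abs_mul_le hx' hy'
        calc _ ≤ |sgn4 x * sgn4 y| + |sgn4 x' * sgn4 y'| := abs_sub _ _
          _ ≤ _ := by linarith
      rw [ht, abs_mul, abs_of_pos (by positivity : (0:ℤ) < 2^(D.k i + 2))] at h1
      have h2 : (2:ℤ) * 2^(D.u j + D.u i) = 2^(D.k i + 2) * T := by
        rw [hT]; push_cast
        rw [← pow_succ', ← pow_add]; congr 1; omega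
      rw [h2] at h1
      exact le_of_mul_le_mul_left h1 (by positivity)
  have hinj : Set.InjOn f (D.Quad j i : Set (ℕ × ℕ × ℕ × ℕ)) := by
    rintro ⟨x, x', y, y'⟩ ht ⟨z, z', w, w'⟩ ht2 heq
    simp only [Quad, Finset.coe_filter, Finset.mem_product, Set.mem_ofPred_eq] at ht ht2
    obtain ⟨⟨hx, hx', hy, hy'⟩, hne, t, ht⟩ := ht
    obtain ⟨⟨hz, hz', hw, hw'⟩, hne2, t2, ht2⟩ := ht2
    have hft : f (x, x', y, y') = (x, y, t) := by
      simp only [f]
      rw [ht, Int.mul_ediv_cancel_left _ (by positivity)]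
    have hft2 : f (z, z', w, w') = (z, w, t2) := by
      simp only [f]
      rw [ht2, Int.mul_ediv_cancel_left _ (by positivity)]
    rw [hft, hft2] at heq
    simp only [Prod.mk.injEq] at heq
    obtain ⟨rfl, rfl, rfl⟩ := heq
    have h0 : sgn4 x' * sgn4 y' = sgn4 z' * sgn4 w' := by linarith
    rcases prime_pair (D.prime _ x' hx') (D.prime _ z' hz') (D.prime _ w' hw')
      (mul_eq_of_sgn h0) with ⟨h, h'⟩ | ⟨h, _⟩
    · rw [h, h']
    · exact absurd (h ▸ hw') (hdis hx')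
  calc (D.Quad j i).card ≤ (D.P j ×ˢ D.P i ×ˢ Z).card :=
        Finset.card_le_card_of_injOn f hmap hinj
    _ = (D.P j).card * (D.P i).card * 2^(D.u j + D.u i - D.k i) := by
        rw [Finset.card_product, Finset.card_product, hZc]; ring

theorem exp_ne {N j x x' : ℕ} (hk : D.k j ≤ N) (e : ℕ → ℕ)
    (he : ∀ p : ℕ, p % 2 = 1 → (2:ℤ)^(N + 2) ∣ (5:ℤ)^(e p) - sgn4 p)
    (hx : x ∈ D.P j) (hx' : x' ∈ D.P j) (hne : x ≠ x') :
    ¬ (2:ℤ)^(D.k j) ∣ (e x : ℤ) - e x' := by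
  intro h
  apply hne
  have h1 := pow_transfer _ _ _ h
  have hle : (2:ℤ)^(D.k j + 2) ∣ (2:ℤ)^(N+2) := pow_dvd_pow _ (by omega)
  have ex := hle.trans (he x (D.odd _ x hx))
  have ex' := hle.trans (he x' (D.odd _ x' hx'))
  have h2 : (2:ℤ)^(D.k j + 2) ∣ sgn4 x - sgn4 x' := by
    have e1 : sgn4 x - sgn4 x' = ((5:ℤ)^(e x) - 5^(e x')) - (5^(e x) - sgn4 x)
      + (5^(e x') - sgn4 x') := by ring
    rw [e1]
    exact dvd_add (dvd_sub h1 ex) ex'
  have b1 : |sgn4 x| ≤ 2^(D.u j) := by rw [abs_sgn4]; exact_mod_cast D.le j x hx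
  have b2 : |sgn4 x'| ≤ 2^(D.u j) := by rw [abs_sgn4]; exact_mod_cast D.le j x' hx'
  have hB : 2 * (2:ℤ)^(D.u j) < 2^(D.k j + 2) := by
    have := D.huk j
    calc 2 * (2:ℤ)^(D.u j) = 2^(D.u j + 1) := by ring
      _ < 2^(D.k j + 2) := pow_lt_pow_right₀ (by norm_num) (by omega)
  exact sgn4_inj (eq_of_dvd_of_small b1 b2 hB h2)

/-- the odd multipliers -/
def V (N : ℕ) : Finset ℕ := (Finset.range (2^N)).filter (fun v => v % 2 = 1)

theorem card_V (N : ℕ) (hN : 1 ≤ N) : 2 * (V N).card = 2^N := by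
  have h : (V N) = (Finset.range (2^(N-1))).image (fun t => 2 * t + 1) := by
    ext v
    have h2 : 2^N = 2 * 2^(N-1) := by rw [← pow_succ']; congr 1; omega
    simp only [V, Finset.mem_filter, Finset.mem_range, Finset.mem_image]
    constructor
    · rintro ⟨h1, h3⟩
      exact ⟨v / 2, by omega, by omega⟩
    · rintro ⟨t, ht, rfl⟩
      constructor <;> omega
  rw [h, Finset.card_image_of_injective _ (fun a b hab => by simpa using hab), Finset.card_range,
    ← pow_succ']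
  congr 1; omega

open scoped Classical in
/-- dangerous lower scales of `j` -/
noncomputable def Dang (j : ℕ) : Finset ℕ :=
  (Finset.range j).filter (fun i => D.k i + 1 ≤ D.u j + D.u i)

theorem sum_bad {N j : ℕ} (hk : D.k j ≤ N) (e : ℕ → ℕ)
    (he : ∀ p : ℕ, p % 2 = 1 → (2:ℤ)^(N + 2) ∣ (5:ℤ)^(e p) - sgn4 p) :
    ∑ v ∈ V N, (D.Bad e v j).card ≤
      ∑ i ∈ D.Dang j, (D.P j).card * (D.P i).card * 2^(D.u j + D.u i - D.k i) *
        (2 * D.S i * 2^(N - D.k j)) := by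
  classical
  let close : ℕ → ℕ → ℕ × ℕ × ℕ × ℕ → Prop := fun v i t =>
    ∃ z : ℤ, |z| < (D.S i : ℤ) ∧ (2:ℤ)^(D.k j) ∣ (v:ℤ) * ((e t.1 : ℤ) - e t.2.1) - z
  have h1 : ∀ v ∈ V N, (D.Bad e v j).card ≤
      ∑ i ∈ D.Dang j, ∑ t ∈ D.Quad j i, if close v i t then 1 else 0 := by
    intro v _
    have hsub : D.Bad e v j ⊆
        (D.Dang j).biUnion (fun i => ((D.Quad j i).filter (fun t => close v i t)).image
          (fun t => t.1)) := by
      intro x hx
      simp only [Bad, Finset.mem_filter] at hx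
      obtain ⟨hx, x', hx', hne, i, hij, hdang, ⟨y, hy, y', hy', hq⟩, z, hz, hz2⟩ := hx
      rw [Finset.mem_biUnion]
      refine ⟨i, ?_, ?_⟩
      · simp only [Dang, Finset.mem_filter, Finset.mem_range]
        exact ⟨hij, hdang⟩
      · rw [Finset.mem_image]
        refine ⟨(x, x', y, y'), ?_, rfl⟩
        simp only [Quad, Finset.mem_filter, Finset.mem_product]
        exact ⟨⟨⟨hx, hx', hy, hy'⟩, hne, hq⟩, z, hz, hz2⟩
    calc (D.Bad e v j).card ≤ _ := Finset.card_le_card hsub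
      _ ≤ ∑ i ∈ D.Dang j, (((D.Quad j i).filter (fun t => close v i t)).image
          (fun t => t.1)).card := Finset.card_biUnion_le
      _ ≤ ∑ i ∈ D.Dang j, ((D.Quad j i).filter (fun t => close v i t)).card :=
          Finset.sum_le_sum (fun i _ => Finset.card_image_le)
      _ = _ := by
          refine Finset.sum_congr rfl (fun i _ => ?_)
          rw [Finset.card_filter]
  have h2 : ∀ i ∈ D.Dang j, ∀ t ∈ D.Quad j i,
      ∑ v ∈ V N, (if close v i t then 1 else 0) ≤ 2 * D.S i * 2^(N - D.k j) := by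
    intro i _ t ht
    obtain ⟨x, x', y, y'⟩ := t
    simp only [Quad, Finset.mem_filter, Finset.mem_product] at ht
    obtain ⟨⟨hx, hx', hy, hy'⟩, hne, _⟩ := ht
    have := card_close N (D.k j) hk ((e x : ℤ) - e x') (D.exp_ne hk e he hx hx' hne) (D.S i)
    rw [← Finset.card_filter]
    refine le_trans (Finset.card_le_card ?_) this
    intro v hv
    simp only [V, Finset.mem_filter] at hv ⊢
    exact ⟨hv.1.1, hv.1.2, hv.2⟩
  calc ∑ v ∈ V N, (D.Bad e v j).card
      ≤ ∑ v ∈ V N, ∑ i ∈ D.Dang j, ∑ t ∈ D.Quad j i, (if close v i t then 1 else 0) :=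
        Finset.sum_le_sum h1
    _ = ∑ i ∈ D.Dang j, ∑ t ∈ D.Quad j i, ∑ v ∈ V N, (if close v i t then 1 else 0) := by
        rw [Finset.sum_comm]
        refine Finset.sum_congr rfl (fun i _ => ?_)
        rw [Finset.sum_comm]
    _ ≤ ∑ i ∈ D.Dang j, ∑ t ∈ D.Quad j i, 2 * D.S i * 2^(N - D.k j) :=
        Finset.sum_le_sum (fun i hi => Finset.sum_le_sum (fun t ht => h2 i hi t ht))
    _ = ∑ i ∈ D.Dang j, (D.Quad j i).card * (2 * D.S i * 2^(N - D.k j)) := by
        refine Finset.sum_congr rfl (fun i _ => ?_)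
        rw [Finset.sum_const, smul_eq_mul]
    _ ≤ _ := by
        refine Finset.sum_le_sum (fun i hi => ?_)
        simp only [Dang, Finset.mem_filter, Finset.mem_range] at hi
        exact Nat.mul_le_mul_right _ (D.card_Quad hi.1 hi.2)

/-- the relative expected number of bad primes at scale `j` (times `1/2`). -/
noncomputable def eta (j : ℕ) : ℝ :=
  ∑ i ∈ D.Dang j, (D.P i).card * 2^(D.u j + D.u i + 1) * 3^(D.w i) / 2^(D.k j)

theorem sum_bad_real {N j : ℕ} (hk : D.k j ≤ N) (e : ℕ → ℕ)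
    (he : ∀ p : ℕ, p % 2 = 1 → (2:ℤ)^(N + 2) ∣ (5:ℤ)^(e p) - sgn4 p) :
    ∑ v ∈ V N, ((D.Bad e v j).card : ℝ) / (D.P j).card ≤ 2^N * D.eta j := by
  rcases Nat.eq_zero_or_pos (D.P j).card with h0 | hpos
  · have : ∑ v ∈ V N, ((D.Bad e v j).card : ℝ) / (D.P j).card = 0 := by
      apply Finset.sum_eq_zero
      intro v _
      rw [h0]; simp
    rw [this]
    unfold eta
    positivity
  have hposR : (0:ℝ) < (D.P j).card := by exact_mod_cast hpos
  rw [← Finset.sum_div, div_le_iff₀ hposR]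
  have h := D.sum_bad hk e he
  have hR : (∑ v ∈ V N, ((D.Bad e v j).card : ℝ)) ≤
      ∑ i ∈ D.Dang j, ((D.P j).card : ℝ) * (D.P i).card * 2^(D.u j + D.u i - D.k i) *
        (2 * D.S i * 2^(N - D.k j)) := by exact_mod_cast h
  refine hR.trans (le_of_eq ?_)
  unfold eta
  rw [Finset.mul_sum, Finset.sum_mul]
  refine Finset.sum_congr rfl (fun i hi => ?_)
  simp only [Dang, Finset.mem_filter, Finset.mem_range] at hi
  have e1 : (2:ℝ)^(D.u j + D.u i - D.k i) * 2^(D.k i) = 2^(D.u j + D.u i) := by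
    rw [← pow_add]; congr 1; omega
  have e2 : (2:ℝ)^(N - D.k j) = 2^N / 2^(D.k j) := by
    rw [eq_div_iff (by positivity), ← pow_add]; congr 1; omega
  have e3 : (D.S i : ℝ) = 2^(D.k i) * 3^(D.w i) := by unfold S; push_cast; ring
  rw [e2, e3]
  have e4 : (2:ℝ)^(D.u j + D.u i + 1) = 2 * 2^(D.u j + D.u i) := by ring
  rw [e4, ← e1]
  ring

theorem exists_v (J : ℕ) (hJ : 1 ≤ D.k J) (e : ℕ → ℕ)
    (he : ∀ p : ℕ, p % 2 = 1 → (2:ℤ)^(D.k J + 2) ∣ (5:ℤ)^(e p) - sgn4 p)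
    (hsum : ∑ j ∈ Finset.range (J+1), D.eta j < 1/4) :
    ∃ v : ℕ, v % 2 = 1 ∧ ∀ j ≤ J, 2 * (D.Bad e v j).card ≤ (D.P j).card := by
  by_contra hcon
  push Not at hcon
  have hlow : ∀ v ∈ V (D.k J),
      (1:ℝ)/2 ≤ ∑ j ∈ Finset.range (J+1), ((D.Bad e v j).card : ℝ) / (D.P j).card := by
    intro v hv
    simp only [V, Finset.mem_filter] at hv
    obtain ⟨j, hj, hlt⟩ := hcon v hv.2
    have hnn : ∀ i ∈ Finset.range (J+1), 0 ≤ ((D.Bad e v i).card : ℝ) / (D.P i).card :=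
      fun i _ => by positivity
    refine le_trans ?_ (Finset.single_le_sum hnn (Finset.mem_range.mpr (by omega : j < J + 1)))
    have hsubc : (D.Bad e v j).card ≤ (D.P j).card := by
      unfold Bad; classical exact Finset.card_filter_le _ _
    have hpos : 0 < (D.P j).card := by omega
    rw [div_le_div_iff₀ (by norm_num) (by exact_mod_cast hpos)]
    have : (((D.P j).card : ℕ) : ℝ) < ((2 * (D.Bad e v j).card : ℕ) : ℝ) := by exact_mod_cast hlt
    push_cast at this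
    linarith
  have h1 : ((V (D.k J)).card : ℝ) * (1/2) ≤
      ∑ v ∈ V (D.k J), ∑ j ∈ Finset.range (J+1), ((D.Bad e v j).card : ℝ) / (D.P j).card := by
    have := Finset.sum_le_sum hlow
    rwa [Finset.sum_const, nsmul_eq_mul] at this
  rw [Finset.sum_comm] at h1
  have h2 : ∑ j ∈ Finset.range (J+1), ∑ v ∈ V (D.k J), ((D.Bad e v j).card : ℝ) / (D.P j).card ≤
      ∑ j ∈ Finset.range (J+1), 2^(D.k J) * D.eta j := by
    refine Finset.sum_le_sum (fun j hj => ?_)
    rw [Finset.mem_range] at hj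
    exact D.sum_bad_real (D.kmono (by omega)) e he
  rw [← Finset.mul_sum] at h2
  have h3 := card_V (D.k J) hJ
  have h3R : 2 * ((V (D.k J)).card : ℝ) = 2^(D.k J) := by exact_mod_cast h3
  have hpos : (0:ℝ) < 2^(D.k J) := by positivity
  nlinarith [h1.trans h2, mul_lt_mul_of_pos_left hsum hpos]

end Scales

end Pool.Agent.Helper667_Sidon
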