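import Mathlib

namespace Pool.Agent.Helper667_Sidon

/-- `5 ^ (2 ^ m) = 1 + 2 ^ (m + 2) * odd`. -/
theorem five_pow_two_pow (m : ℕ) : ∃ c : ℤ, (5:ℤ)^(2^m) = 1 + 2^(m+2) * (1 + 2*c) := by
  induction m with
  | zero => exact ⟨0, by norm_num⟩
  | succ m ih =>
    obtain ⟨c, hc⟩ := ih
    refine ⟨c + 2^m * (1 + 2*c)^2, ?_⟩
    rw [pow_succ 2 m, pow_mul, hc]
    ring

theorem exists_dlog (N : ℕ) (z : ℤ) (hz : (4:ℤ) ∣ z - 1) :
    ∃ e : ℕ, (2:ℤ)^(N+2) ∣ (5:ℤ)^e - z := by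
  induction N with
  | zero =>
    refine ⟨0, ?_⟩
    obtain ⟨c, hc⟩ := hz
    exact ⟨-c, by norm_num; linarith⟩
  | succ N ih =>
    obtain ⟨e, c, hc⟩ := ih
    rcases Int.even_or_odd c with ⟨d, hd⟩ | ⟨d, hd⟩
    · refine ⟨e, d, ?_⟩
      rw [hc, hd]; ring
    · obtain ⟨g, hg⟩ := five_pow_two_pow N
      have h5 : Odd ((5:ℤ)^e) := Odd.pow (by decide)
      obtain ⟨q, hq⟩ := h5
      refine ⟨e + 2^N, d + 1 + q + g + 2 * q * g, ?_⟩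
      have h1 : (5:ℤ)^(e + 2^N) - z = ((5:ℤ)^e - z) + (5:ℤ)^e * (2^(N+2) * (1 + 2*g)) := by
        rw [pow_add, hg]; ring
      rw [h1, hc, hd, hq]
      ring

/-- Congruent exponents modulo `2 ^ k` give congruent powers of `5` modulo `2 ^ (k+2)`. -/
theorem pow_transfer_le (k a b : ℕ) (hab : a ≤ b) (h : (2:ℤ)^k ∣ (a:ℤ) - b) :
    (2:ℤ)^(k+2) ∣ (5:ℤ)^a - (5:ℤ)^b := by
  obtain ⟨c, hc⟩ : (2:ℕ)^k ∣ b - a := by
    have h2 : ((2^k : ℕ):ℤ) ∣ ((b - a : ℕ) : ℤ) := by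
      rw [Nat.cast_sub hab]
      push_cast
      rw [← dvd_neg]
      simpa using h
    exact_mod_cast h2
  obtain ⟨g, hg⟩ := five_pow_two_pow k
  have hb : b = a + 2^k * c := by omega
  have h1 : (2:ℤ)^(k+2) ∣ (5:ℤ)^(2^k) - 1 := ⟨1 + 2*g, by rw [hg]; ring⟩
  have h2 : (5:ℤ)^(2^k) - 1 ∣ ((5:ℤ)^(2^k))^c - 1 := by
    simpa using sub_one_dvd_pow_sub_one ((5:ℤ)^(2^k)) c
  have h3 : (5:ℤ)^a - (5:ℤ)^b = -((5:ℤ)^a * (((5:ℤ)^(2^k))^c - 1)) := by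
    rw [hb, pow_add, pow_mul]; ring
  rw [h3, dvd_neg]
  exact Dvd.dvd.mul_left (h1.trans h2) _

theorem pow_transfer (k a b : ℕ) (h : (2:ℤ)^k ∣ (a:ℤ) - b) :
    (2:ℤ)^(k+2) ∣ (5:ℤ)^a - (5:ℤ)^b := by
  rcases le_total a b with hab | hab
  · exact pow_transfer_le k a b hab h
  · have := pow_transfer_le k b a hab (by rw [← dvd_neg]; simpa using h)
    rw [← dvd_neg]; simpa using this

/-- Signed version of an odd number which is `1` modulo `4`. -/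
def sgn4 (p : ℕ) : ℤ := if p % 4 = 1 then (p:ℤ) else -(p:ℤ)

theorem sgn4_mod (p : ℕ) (hp : p % 2 = 1) : (4:ℤ) ∣ sgn4 p - 1 := by
  unfold sgn4
  split_ifs with h <;> omega

theorem natAbs_sgn4 (p : ℕ) : (sgn4 p).natAbs = p := by
  unfold sgn4
  split_ifs with h <;> simp

theorem abs_sgn4 (p : ℕ) : |sgn4 p| = (p:ℤ) := by
  unfold sgn4
  split_ifs with h <;> simp

theorem sgn4_inj {p q : ℕ} (h : sgn4 p = sgn4 q) : p = q := by
  have := congrArg Int.natAbs h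
  simpa [natAbs_sgn4] using this

/-- discrete logarithm function to precision `2 ^ (N+2)`. -/
theorem exists_dlog_fun (N : ℕ) :
    ∃ e : ℕ → ℕ, ∀ p : ℕ, p % 2 = 1 → (2:ℤ)^(N+2) ∣ (5:ℤ)^(e p) - sgn4 p := by
  have h : ∀ p : ℕ, ∃ e : ℕ, p % 2 = 1 → (2:ℤ)^(N+2) ∣ (5:ℤ)^e - sgn4 p := by
    intro p
    by_cases hp : p % 2 = 1
    · obtain ⟨e, he⟩ := exists_dlog N (sgn4 p) (sgn4_mod p hp)
      exact ⟨e, fun _ => he⟩
    · exact ⟨0, fun h => absurd h hp⟩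
  choose e he using h
  exact ⟨e, he⟩

/-- The key transfer: congruence of exponent sums times an odd number gives a congruence of
products. -/
theorem dlog_transfer {N k : ℕ} (hk : k ≤ N) (e : ℕ → ℕ)
    (he : ∀ p : ℕ, p % 2 = 1 → (2:ℤ)^(N+2) ∣ (5:ℤ)^(e p) - sgn4 p)
    {v : ℤ} (hv : Odd v) {p q r s : ℕ} (hp : p % 2 = 1) (hq : q % 2 = 1) (hr : r % 2 = 1)
    (hs : s % 2 = 1)
    (h : (2:ℤ)^k ∣ (v * e p + v * e q) - (v * e r + v * e s)) :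
    (2:ℤ)^(k+2) ∣ sgn4 p * sgn4 q - sgn4 r * sgn4 s := by
  have h1 : (2:ℤ)^k ∣ (((e p + e q : ℕ)):ℤ) - ((e r + e s : ℕ):ℤ) := by
    have h2 : (2:ℤ)^k ∣ v * ((((e p + e q : ℕ)):ℤ) - ((e r + e s : ℕ):ℤ)) := by
      have : v * ((((e p + e q : ℕ)):ℤ) - ((e r + e s : ℕ):ℤ))
          = (v * e p + v * e q) - (v * e r + v * e s) := by push_cast; ring
      rw [this]; exact h
    refine IsCoprime.dvd_of_dvd_mul_left ?_ h2
    have : IsCoprime (2:ℤ) v := by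
      rw [Int.isCoprime_iff_gcd_eq_one]
      have := Int.isCoprime_iff_gcd_eq_one.mp ((Int.prime_two.coprime_iff_not_dvd (n := v)).mpr (by
        intro hd
        exact (Int.not_even_iff_odd.mpr hv) (even_iff_two_dvd.mpr hd)))
      exact this
    exact this.pow_left
  have h3' : (2:ℤ)^(k+2) ∣ (5:ℤ)^(e p) * 5^(e q) - 5^(e r) * 5^(e s) := by
    have h3 := pow_transfer k _ _ h1
    rwa [pow_add 5 (e p), pow_add 5 (e r)] at h3
  have hle : (2:ℤ)^(k+2) ∣ (2:ℤ)^(N+2) := pow_dvd_pow _ (by omega)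
  have ep := hle.trans (he p hp)
  have eq := hle.trans (he q hq)
  have er := hle.trans (he r hr)
  have es := hle.trans (he s hs)
  have key : sgn4 p * sgn4 q - sgn4 r * sgn4 s =
      ((5:ℤ)^(e p) * 5^(e q) - 5^(e r) * 5^(e s))
      - (5:ℤ)^(e p) * (5^(e q) - sgn4 q) - sgn4 q * (5^(e p) - sgn4 p)
      + (5:ℤ)^(e r) * (5^(e s) - sgn4 s) + sgn4 s * (5^(e r) - sgn4 r) := by ring
  rw [key]
  exact dvd_add (dvd_add (dvd_sub (dvd_sub h3' (Dvd.dvd.mul_left eq _)) (Dvd.dvd.mul_left ep _))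
    (Dvd.dvd.mul_left es _)) (Dvd.dvd.mul_left er _)

end Pool.Agent.Helper667_Sidon
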