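import Pool.Agent.Helper667_Sidon.Param

namespace Pool.Agent.Helper667_Sidon

open Real Filter Topology

theorem exists_shift : ∃ j0 : ℕ, 2 ≤ j0 ∧
    (∑' i : ℕ, ((i + j0 : ℕ) : ℝ)^(-(6/5:ℝ))) < 1/2 ∧
    (∑' i : ℕ, ((i + j0 : ℕ) : ℝ)^(-(13/10:ℝ))) < 1/2 := by
  have t1 := tendsto_sum_nat_add (fun n : ℕ => (n : ℝ)^(-(6/5:ℝ)))
  have t2 := tendsto_sum_nat_add (fun n : ℕ => (n : ℝ)^(-(13/10:ℝ)))
  have e1 := t1.eventually (gt_mem_nhds (by norm_num : (0:ℝ) < 1/2))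
  have e2 := t2.eventually (gt_mem_nhds (by norm_num : (0:ℝ) < 1/2))
  obtain ⟨j0, h⟩ := ((eventually_ge_atTop 2).and (e1.and e2)).exists
  exact ⟨j0, h.1, h.2.1, h.2.2⟩

theorem sum_eta_lt {α : ℝ} (h1 : 1/3 ≤ α) (h2 : α ≤ √2 - 1) (j0 : ℕ) (hj0 : 2 ≤ j0)
    (ht1 : (∑' i : ℕ, ((i + j0 : ℕ) : ℝ)^(-(6/5:ℝ))) < 1/2)
    (ht2 : (∑' i : ℕ, ((i + j0 : ℕ) : ℝ)^(-(13/10:ℝ))) < 1/2) (J : ℕ) :
    ∑ j ∈ Finset.range (J+1), (dat α h1 h2 j0 hj0).eta j < 1/4 := by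
  classical
  set T1 : ℝ := ∑' i : ℕ, ((i + j0 : ℕ) : ℝ)^(-(6/5:ℝ)) with hT1
  set T2 : ℝ := ∑' i : ℕ, ((i + j0 : ℕ) : ℝ)^(-(13/10:ℝ)) with hT2
  have s1 : Summable (fun i : ℕ => ((i + j0 : ℕ) : ℝ)^(-(6/5:ℝ))) :=
    (summable_nat_add_iff (f := fun n : ℕ => (n : ℝ)^(-(6/5:ℝ))) j0).mpr
      (Real.summable_nat_rpow.mpr (by norm_num))
  have s2 : Summable (fun i : ℕ => ((i + j0 : ℕ) : ℝ)^(-(13/10:ℝ))) :=
    (summable_nat_add_iff (f := fun n : ℕ => (n : ℝ)^(-(13/10:ℝ))) j0).mpr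
      (Real.summable_nat_rpow.mpr (by norm_num))
  have hT1n : 0 ≤ T1 := tsum_nonneg (fun i => by positivity)
  have hT2n : 0 ≤ T2 := tsum_nonneg (fun i => by positivity)
  have heta : ∀ j, (dat α h1 h2 j0 hj0).eta j ≤ T1 * ((j + j0 : ℕ) : ℝ)^(-(13/10:ℝ)) := by
    intro j
    unfold Scales.eta
    calc ∑ i ∈ (dat α h1 h2 j0 hj0).Dang j, (((dat α h1 h2 j0 hj0).P i).card : ℝ) *
          2^((dat α h1 h2 j0 hj0).u j + (dat α h1 h2 j0 hj0).u i + 1) *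
          3^((dat α h1 h2 j0 hj0).w i) / 2^((dat α h1 h2 j0 hj0).k j)
        ≤ ∑ i ∈ (dat α h1 h2 j0 hj0).Dang j,
          ((i + j0 : ℕ) : ℝ)^(-(6/5:ℝ)) * ((j + j0 : ℕ) : ℝ)^(-(13/10:ℝ)) := by
          refine Finset.sum_le_sum (fun i hi => ?_)
          simp only [Scales.Dang, Finset.mem_filter, Finset.mem_range] at hi
          obtain ⟨hij, hd⟩ := hi
          exact term_bound h1 h2 (by omega : 2 ≤ i + j0) (by omega : i + j0 < j + j0) hd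
      _ = (∑ i ∈ (dat α h1 h2 j0 hj0).Dang j, ((i + j0 : ℕ) : ℝ)^(-(6/5:ℝ)))
          * ((j + j0 : ℕ) : ℝ)^(-(13/10:ℝ)) := by rw [Finset.sum_mul]
      _ ≤ T1 * ((j + j0 : ℕ) : ℝ)^(-(13/10:ℝ)) := by
          gcongr
          exact s1.sum_le_tsum _ (fun i _ => by positivity)
  calc ∑ j ∈ Finset.range (J+1), (dat α h1 h2 j0 hj0).eta j
      ≤ ∑ j ∈ Finset.range (J+1), T1 * ((j + j0 : ℕ) : ℝ)^(-(13/10:ℝ)) :=
        Finset.sum_le_sum (fun j _ => heta j)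
    _ = T1 * ∑ j ∈ Finset.range (J+1), ((j + j0 : ℕ) : ℝ)^(-(13/10:ℝ)) := by
        rw [Finset.mul_sum]
    _ ≤ T1 * T2 := by
        gcongr
        exact s2.sum_le_tsum _ (fun i _ => by positivity)
    _ < 1/4 := by nlinarith

/-- Size of scale `n`. -/
def NN (n : ℕ) : ℕ := 3 * (2^(60 * n) * 3^(wid n))

theorem NN_lt (n : ℕ) : NN n < NN (n+1) := by
  unfold NN
  have h1 : 2^(60 * n) < 2^(60 * (n+1)) := Nat.pow_lt_pow_right (by norm_num) (by omega)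
  have h2 : 3^(wid n) ≤ 3^(wid (n+1)) := Nat.pow_le_pow_right (by norm_num) (wid_mono (by omega))
  have := Nat.mul_lt_mul_of_lt_of_le h1 h2 (by positivity)
  omega

theorem NN_mono : StrictMono NN := strictMono_nat_of_lt_succ NN_lt

theorem count_lower {α : ℝ} (h1 : 1/3 ≤ α) (h2 : α ≤ √2 - 1) {n : ℕ} (hn : 2 ≤ n) :
    (1/983040) * (2:ℝ)^(60 * aa α n * n) * (n:ℝ)^(-(19/10:ℝ)) ≤ ((PP α n).card : ℝ) / 2 := by
  have hm5 := mm_ge h1 h2 hn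
  set t := mm α n - 1 with ht
  have ht4 : 4 ≤ t := by omega
  have htR : (4:ℝ) ≤ t := by exact_mod_cast ht4
  have htm : (t:ℝ) + 1 = mm α n := by
    have : t + 1 = mm α n := by omega
    exact_mod_cast this
  have hnR : (2:ℝ) ≤ n := by exact_mod_cast hn
  have hQ := card_Q t (by omega)
  have hP : ((Q t).card : ℝ) / 2 - 1/2 ≤ (PP α n).card := by
    unfold PP
    split_ifs
    · exact sdiff_card_real _
    · exact H_card_real _
  have h16 : 2 * (t:ℝ) ≤ 16^t := by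
    have : t < 2^t := Nat.lt_two_pow_self
    have h3 : 2 * 2^t ≤ 16^t := by
      calc 2 * 2^t = 2^(t+1) := by rw [pow_succ]; ring
        _ ≤ 2^(4*t) := Nat.pow_le_pow_right (by norm_num) (by omega)
        _ = 16^t := by rw [pow_mul]; norm_num
    have : 2 * t ≤ 16^t := by omega
    exact_mod_cast this
  have hA : (16:ℝ)^t / (8 * t) ≤ ((PP α n).card : ℝ) / 2 := by
    have e1 : (16:ℝ)^t / (8 * t) = (16^t / t) / 8 := by
      rw [div_div]; ring_nf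
    have e2 : (2:ℝ) ≤ 16^t / t := by rw [le_div_iff₀ (by linarith)]; exact h16
    rw [e1]
    linarith
  have hm := mm_le h1 h2 hn
  have ht8 : (t:ℝ) ≤ 8 * n := by
    have : t ≤ 8 * n := by omega
    exact_mod_cast this
  have hff := ff_lt_mm (α := α) n
  have h16b : (2:ℝ)^(ff α n - 8) ≤ 16^t := by
    have : (16:ℝ)^t = (2:ℝ)^(4 * (t:ℝ)) := by
      rw [Real.rpow_mul (by norm_num), Real.rpow_natCast]
      norm_num
    rw [this]
    apply Real.rpow_le_rpow_of_exponent_le (by norm_num)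
    rw [← htm] at hff
    linarith
  have hffe : (2:ℝ)^(ff α n - 8) = (2:ℝ)^(60 * aa α n * n) * (60 * (n:ℝ))^(-(9/10:ℝ)) / 256 := by
    have q1 : (60 * (n:ℝ)) = (2:ℝ)^(Real.logb 2 (60 * n)) :=
      (Real.rpow_logb (by norm_num) (by norm_num) (by positivity)).symm
    have e : (60 * (n:ℝ))^(-(9/10:ℝ)) = (2:ℝ)^(Real.logb 2 (60 * n) * (-(9/10:ℝ))) := by
      conv_lhs => rw [q1]
      rw [← Real.rpow_mul (by norm_num)]
    rw [e, ← Real.rpow_add (by norm_num)]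
    have e256 : (256:ℝ) = (2:ℝ)^(8:ℝ) := by
      rw [show (8:ℝ) = ((8:ℕ):ℝ) by norm_num, Real.rpow_natCast]; norm_num
    rw [e256, ← Real.rpow_sub (by norm_num)]
    congr 1
    unfold ff
    ring
  have h60 : (1/60) * (n:ℝ)^(-(9/10:ℝ)) ≤ (60 * (n:ℝ))^(-(9/10:ℝ)) := by
    rw [Real.mul_rpow (by norm_num) (by positivity)]
    gcongr
    have : (60:ℝ)^(-1:ℝ) ≤ 60^(-(9/10:ℝ)) :=
      Real.rpow_le_rpow_of_exponent_le (by norm_num) (by norm_num)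
    rw [Real.rpow_neg_one] at this
    linarith
  have hpow : (n:ℝ)^(-(19/10:ℝ)) = (n:ℝ)^(-(9/10:ℝ)) / n := by
    rw [← Real.rpow_sub_one (by positivity)]; norm_num
  calc (1/983040) * (2:ℝ)^(60 * aa α n * n) * (n:ℝ)^(-(19/10:ℝ))
      = (2:ℝ)^(60 * aa α n * n) * ((1/60) * (n:ℝ)^(-(9/10:ℝ))) / 256 / (8 * (8 * n)) := by
        rw [hpow]; field_simp; norm_num
    _ ≤ (2:ℝ)^(60 * aa α n * n) * ((60 * (n:ℝ))^(-(9/10:ℝ))) / 256 / (8 * t) := by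
        gcongr
    _ = (2:ℝ)^(ff α n - 8) / (8 * t) := by rw [hffe]
    _ ≤ (16:ℝ)^t / (8 * t) := by gcongr
    _ ≤ _ := hA

theorem aux5 {x : ℝ} (hx : 2 ≤ x) : 27 * (x+1)^2 ≤ 128 * x^2 := by nlinarith

theorem aux6 {x : ℝ} (hx : 2 ≤ x) : 1 ≤ 2^67 * x^2 := by nlinarith

theorem aux7 {x : ℝ} : 2^67 * x^2 ≤ (2^34 * x)^2 := by nlinarith [sq_nonneg x]

theorem upper_N {a : ℝ} (ha0 : 0 ≤ a) (ha : a ≤ 1/2) {n N : ℕ} (hn : 2 ≤ n) (hlo : NN n ≤ N)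
    (hhi : N ≤ NN (n+1)) :
    (N:ℝ)^a / (Real.log N)^3 ≤ 2^34 * (2:ℝ)^(60 * a * n) * (n:ℝ)^(-(2:ℝ)) := by
  have hnR : (2:ℝ) ≤ n := by exact_mod_cast hn
  have hNN : (2:ℝ)^(60 * n) ≤ N := by
    have : 2^(60 * n) ≤ NN n := by
      unfold NN
      calc 2^(60 * n) ≤ 2^(60 * n) * 3^(wid n) := Nat.le_mul_of_pos_right _ (by positivity)
        _ ≤ 3 * (2^(60 * n) * 3^(wid n)) := by omega
    exact_mod_cast this.trans hlo
  have hlog : (n:ℝ) ≤ Real.log N := by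
    have h3 : Real.log ((2:ℝ)^(60 * n)) ≤ Real.log N := Real.log_le_log (by positivity) hNN
    rw [Real.log_pow] at h3
    push_cast at h3
    have : (0.5:ℝ) ≤ Real.log 2 := by linarith [Real.log_two_gt_d9]
    nlinarith
  have hup : (N:ℝ) ≤ (2^67 * (n:ℝ)^2) * 2^(60 * n) := by
    have h3 : NN (n+1) ≤ 27 * (n+1)^2 * 2^(60 * (n+1)) := by
      unfold NN
      have := pow_wid_le (by omega : 1 ≤ n + 1)
      calc 3 * (2^(60 * (n+1)) * 3^(wid (n+1))) ≤ 3 * (2^(60 * (n+1)) * (9 * (n+1)^2)) := by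
            gcongr
        _ = 27 * (n+1)^2 * 2^(60 * (n+1)) := by ring
    have h4 : (N:ℝ) ≤ 27 * ((n:ℝ)+1)^2 * 2^(60 * (n+1)) := by
      have h4' : (N:ℝ) ≤ ((27 * (n+1)^2 * 2^(60 * (n+1)) : ℕ) : ℝ) := Nat.cast_le.mpr (hhi.trans h3)
      rw [Nat.cast_mul, Nat.cast_mul, Nat.cast_pow, Nat.cast_pow, Nat.cast_add, Nat.cast_one,
        Nat.cast_ofNat, Nat.cast_ofNat] at h4'
      exact h4'
    refine h4.trans ?_
    have e : (2:ℝ)^(60 * (n+1)) = 2^60 * 2^(60*n) := by rw [← pow_add]; congr 1; ring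
    rw [e]
    have h5 : 27 * ((n:ℝ)+1)^2 ≤ 128 * n^2 := aux5 hnR
    calc 27 * ((n:ℝ)+1)^2 * (2^60 * 2^(60*n)) ≤ 128 * n^2 * (2^60 * 2^(60*n)) := by gcongr
      _ = _ := by ring
  have hNa : (N:ℝ)^a ≤ 2^34 * n * (2:ℝ)^(60 * a * n) := by
    calc (N:ℝ)^a ≤ ((2^67 * (n:ℝ)^2) * 2^(60 * n))^a := by gcongr
      _ = (2^67 * (n:ℝ)^2)^a * ((2:ℝ)^(60 * n))^a := Real.mul_rpow (by positivity) (by positivity)
      _ ≤ (2^67 * (n:ℝ)^2)^(1/2:ℝ) * ((2:ℝ)^(60 * n))^a := by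
          gcongr
          exact aux6 hnR
      _ ≤ (2^34 * n) * ((2:ℝ)^(60 * n))^a := by
          gcongr
          have : ((2:ℝ)^34 * n) = (((2:ℝ)^34 * n)^(2:ℕ))^(1/2:ℝ) := by
            rw [← Real.sqrt_eq_rpow, Real.sqrt_sq (by positivity)]
          rw [this]
          exact Real.rpow_le_rpow (by positivity) aux7 (by norm_num)
      _ = 2^34 * n * (2:ℝ)^(60 * a * n) := by
          congr 1
          rw [← Real.rpow_natCast, ← Real.rpow_mul (by norm_num)]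
          congr 1
          push_cast; ring
  have hn0 : (0:ℝ) < n := by linarith
  calc (N:ℝ)^a / (Real.log N)^3 ≤ (2^34 * n * (2:ℝ)^(60 * a * n)) / (n:ℝ)^3 := by gcongr
    _ = _ := by
      rw [Real.rpow_neg hn0.le]
      rw [show (2:ℝ) = ((2:ℕ):ℝ) by norm_num, Real.rpow_natCast]
      field_simp

theorem main (α : ℝ) (h1 : 1/3 ≤ α) (h2 : α ≤ √2 - 1) :
    ∃ A : Set ℕ, 0 ∉ A ∧ IsSid A ∧
      (∀ᶠ N : ℕ in atTop, (N:ℝ)^α / (Real.log N)^3 ≤ ((A ∩ Set.Icc 1 N).ncard : ℝ)) ∧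
      (∃ᶠ N : ℕ in atTop, (N:ℝ)^((1-α)/(1+α)) / (Real.log N)^3 ≤
        ((A ∩ Set.Icc 1 N).ncard : ℝ)) := by
  obtain ⟨j0, hj0, ht1, ht2⟩ := exists_shift
  obtain ⟨A, hA0, hAS, hcount⟩ := (dat α h1 h2 j0 hj0).exists_infinite
    (fun j => by show 1 ≤ 60 * (j + j0); omega) (sum_eta_lt h1 h2 j0 hj0 ht1 ht2)
  obtain ⟨f1, f2, f3, f4⟩ := alpha_facts h1 h2
  have hcount' : ∀ n, j0 ≤ n → ((PP α n).card : ℝ) / 2 ≤ ((A ∩ Set.Icc 1 (NN n)).ncard : ℝ) := by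
    intro n hn
    have h := hcount (n - j0)
    have e : n - j0 + j0 = n := by omega
    have e1 : (dat α h1 h2 j0 hj0).P (n - j0) = PP α n := by
      show PP α (n - j0 + j0) = PP α n
      rw [e]
    have e2 : 3 * (dat α h1 h2 j0 hj0).S (n - j0) = NN n := by
      show 3 * (2^(60 * (n - j0 + j0)) * 3^(wid (n - j0 + j0))) = NN n
      rw [e]; rfl
    rw [e1, e2] at h
    have h' : (PP α n).card ≤ 2 * (A ∩ Set.Icc 1 (NN n)).ncard := by omega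
    have : ((PP α n).card : ℝ) ≤ 2 * ((A ∩ Set.Icc 1 (NN n)).ncard : ℝ) := by exact_mod_cast h'
    linarith
  -- large n
  have hlarge : ∀ᶠ n : ℕ in atTop, (2:ℝ)^34 * (n:ℝ)^(-(2:ℝ)) ≤
      (1/983040) * (n:ℝ)^(-(19/10:ℝ)) := by
    have t := (tendsto_rpow_atTop (by norm_num : (0:ℝ) < 1/10)).comp tendsto_natCast_atTop_atTop
      (α := ℕ)
    filter_upwards [t.eventually_ge_atTop ((2:ℝ)^34 * 983040), eventually_ge_atTop 1] with n hn hn1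
    have hn0 : (0:ℝ) < n := by exact_mod_cast hn1
    have e : (n:ℝ)^(-(19/10:ℝ)) = (n:ℝ)^(-(2:ℝ)) * (n:ℝ)^(1/10:ℝ) := by
      rw [← Real.rpow_add hn0]; norm_num
    rw [e]
    have hn' : (2:ℝ)^34 * 983040 ≤ (n:ℝ)^(1/10:ℝ) := hn
    have hp : 0 < (n:ℝ)^(-(2:ℝ)) := by positivity
    nlinarith [mul_le_mul_of_nonneg_left hn' hp.le]
  obtain ⟨n1, hn1⟩ := Filter.eventually_atTop.mp hlarge
  set n0 := max (max n1 j0) 2 with hn0
  -- key estimate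
  have key : ∀ n ≥ n0, ∀ a : ℝ, 0 ≤ a → a ≤ aa α n → ∀ N : ℕ, NN n ≤ N → N ≤ NN (n+1) →
      (N:ℝ)^a / (Real.log N)^3 ≤ ((A ∩ Set.Icc 1 N).ncard : ℝ) := by
    intro n hn a ha0 ha N hlo hhi
    have hn1' : n1 ≤ n := by omega
    have hnj : j0 ≤ n := by omega
    have hn2 : 2 ≤ n := by omega
    have ha2 := (aa_bounds h1 h2 n).2
    calc (N:ℝ)^a / (Real.log N)^3 ≤ 2^34 * (2:ℝ)^(60 * a * n) * (n:ℝ)^(-(2:ℝ)) :=
          upper_N ha0 (ha.trans ha2) hn2 hlo hhi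
      _ ≤ 2^34 * (2:ℝ)^(60 * aa α n * n) * (n:ℝ)^(-(2:ℝ)) := by
          gcongr
          norm_num
      _ = (2:ℝ)^(60 * aa α n * n) * (2^34 * (n:ℝ)^(-(2:ℝ))) := by ring
      _ ≤ (2:ℝ)^(60 * aa α n * n) * ((1/983040) * (n:ℝ)^(-(19/10:ℝ))) :=
          mul_le_mul_of_nonneg_left (hn1 n hn1') (by positivity)
      _ = (1/983040) * (2:ℝ)^(60 * aa α n * n) * (n:ℝ)^(-(19/10:ℝ)) := by ring
      _ ≤ ((PP α n).card : ℝ) / 2 := count_lower h1 h2 hn2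
      _ ≤ ((A ∩ Set.Icc 1 (NN n)).ncard : ℝ) := hcount' n hnj
      _ ≤ ((A ∩ Set.Icc 1 N).ncard : ℝ) := by
          have hsub : A ∩ Set.Icc 1 (NN n) ⊆ A ∩ Set.Icc 1 N :=
            Set.inter_subset_inter_right _ (Set.Icc_subset_Icc_right hlo)
          have := Set.ncard_le_ncard hsub ((Set.finite_Icc 1 N).subset Set.inter_subset_right)
          exact_mod_cast this
  refine ⟨A, hA0, hAS, ?_, ?_⟩
  · filter_upwards [eventually_ge_atTop (NN n0)] with N hN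
    -- find n
    have hex : ∃ n, N < NN (n+1) := ⟨N, by
      have := NN_mono.id_le (N+1)
      simp only [id] at this
      omega⟩
    classical
    obtain ⟨n, hn, hmin⟩ : ∃ n, N < NN (n+1) ∧ ∀ m < n, ¬ N < NN (m+1) :=
      ⟨Nat.find hex, Nat.find_spec hex, fun m hm => Nat.find_min hex hm⟩
    have hnn0 : n0 ≤ n := by
      by_contra hcon
      push Not at hcon
      have : NN (n+1) ≤ NN n0 := NN_mono.monotone (by omega)
      omega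
    have hlo : NN n ≤ N := by
      rcases Nat.eq_zero_or_pos n with h0 | hpos
      · omega
      · have := hmin (n-1) (by omega)
        have e : n - 1 + 1 = n := by omega
        rw [e] at this
        omega
    exact key n hnn0 α (by linarith) (aa_bounds h1 h2 n).1 N hlo hn.le
  · rw [Filter.frequently_atTop]
    intro M
    -- special scale
    obtain ⟨s, hs⟩ : ∃ s : ℕ, max n0 M ≤ 4^s := ⟨max n0 M, by
      exact (Nat.lt_pow_self (by norm_num)).le⟩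
    have hM : M ≤ NN (4^s) := by
      have := NN_mono.id_le (4^s)
      simp only [id] at this
      omega
    refine ⟨NN (4^s), hM, ?_⟩
    have haa : aa α (4^s) = (1-α)/(1+α) := by
      unfold aa
      rw [if_pos ⟨s, rfl⟩]
    exact key (4^s) (by omega) _ (by linarith) haa.ge _ le_rfl (NN_lt _).le

end Pool.Agent.Helper667_Sidon
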