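import Mathlib

namespace Pool.Agent.Helper667_Sidon

/-- label width. -/
def wid (n : ℕ) : ℕ := 2 * Nat.log 3 n + 2

/-- label. -/
def lab (n : ℕ) : ℕ := 3^(Nat.log 3 n) + 3^(Nat.log 3 n + 1) * (n - 3^(Nat.log 3 n))

theorem wid_mono {a b : ℕ} (h : a ≤ b) : wid a ≤ wid b := by
  unfold wid
  have := Nat.log_mono_right (b := 3) h
  omega

theorem lab_ne {n n' : ℕ} (hn : 1 ≤ n) (h : n < n') : ¬ (lab n ≡ lab n' [MOD 3^(wid n)]) := by
  set m := Nat.log 3 n with hm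
  set m' := Nat.log 3 n' with hm'
  have hmm : m ≤ m' := Nat.log_mono_right h.le
  have hlo : 3^m ≤ n := Nat.pow_log_le_self 3 (by omega)
  have hlo' : 3^m' ≤ n' := Nat.pow_log_le_self 3 (by omega)
  have hhi : n < 3^(m+1) := Nat.lt_pow_succ_log_self (by norm_num) n
  have hhi' : n' < 3^(m'+1) := Nat.lt_pow_succ_log_self (by norm_num) n'
  have hlab : ∀ k : ℕ, Nat.log 3 k = m → 3^m ≤ k → k < 3^(m+1) → lab k < 3^(wid n) := by
    intro k hk h1 h2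
    unfold lab wid
    rw [hk, ← hm]
    have e1 : 3^(2*m+2) = 3^(m+1) * 3^(m+1) := by rw [← pow_add]; congr 1; omega
    have e2 : (3:ℕ)^(m+1) = 3 * 3^m := by rw [pow_succ']
    have h3 : k - 3^m + 1 ≤ 2 * 3^m := by omega
    rw [e1]
    calc 3^m + 3^(m+1) * (k - 3^m) < 3^(m+1) + 3^(m+1) * (k - 3^m) := by
          have : 0 < 3^m := by positivity
          omega
      _ = 3^(m+1) * (k - 3^m + 1) := by ring
      _ ≤ 3^(m+1) * 3^(m+1) := Nat.mul_le_mul_left _ (by omega)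
  rcases hmm.eq_or_lt with heq | hlt
  · intro hcon
    have h1 := hlab n rfl hlo hhi
    have h2 := hlab n' heq.symm (heq ▸ hlo') (heq ▸ hhi')
    have h3 : lab n = lab n' := Nat.ModEq.eq_of_lt_of_lt hcon h1 h2
    unfold lab at h3
    rw [← hm, ← hm', ← heq] at h3
    have h4 : 3^(m+1) * (n - 3^m) = 3^(m+1) * (n' - 3^m) := by omega
    have h5 := Nat.eq_of_mul_eq_mul_left (by positivity) h4
    have := heq ▸ hlo'
    omega
  · intro hcon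
    have hd : 3^(m+1) ∣ 3^(wid n) := pow_dvd_pow _ (by unfold wid; omega)
    have h1 : lab n ≡ lab n' [MOD 3^(m+1)] := hcon.of_dvd hd
    have h2 : lab n' ≡ 0 [MOD 3^(m+1)] := by
      rw [Nat.modEq_zero_iff_dvd]
      unfold lab
      rw [← hm']
      refine dvd_add (pow_dvd_pow _ hlt) (Dvd.dvd.mul_right (pow_dvd_pow _ (by omega)) _)
    have h3 : lab n ≡ 3^m [MOD 3^(m+1)] := by
      unfold lab
      rw [← hm]
      have : 3^(m+1) * (n - 3^m) ≡ 0 [MOD 3^(m+1)] := by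
        rw [Nat.modEq_zero_iff_dvd]; exact Dvd.intro _ rfl
      simpa using (Nat.ModEq.refl (3^m)).add this
    have h4 : 3^m ≡ 0 [MOD 3^(m+1)] := (h3.symm.trans h1).trans h2
    rw [Nat.modEq_zero_iff_dvd] at h4
    have := Nat.le_of_dvd (by positivity) h4
    have e2 : (3:ℕ)^(m+1) = 3 * 3^m := by rw [pow_succ']
    have : 0 < 3^m := by positivity
    omega

theorem pow_wid_le {n : ℕ} (hn : 1 ≤ n) : 3^(wid n) ≤ 9 * n^2 := by
  have hlo : 3^(Nat.log 3 n) ≤ n := Nat.pow_log_le_self 3 (by omega)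
  unfold wid
  calc 3^(2 * Nat.log 3 n + 2) = 9 * (3^(Nat.log 3 n))^2 := by
        rw [pow_add, mul_comm 2, pow_mul]; ring
    _ ≤ 9 * n^2 := by gcongr

/-- The exponent estimate for dangerous pairs. -/
theorem exponent_bound {κ ℓ a b B X Y lk ll : ℝ} (hB : 0 ≤ B) (hlk : 0 ≤ lk) (hll : 0 ≤ ll)
    (hX : X ≤ a * κ - B * lk) (hY : Y ≤ b * ℓ - B * ll) (hd : ℓ ≤ X + Y)
    (hκ : 0 ≤ κ)
    (hb1 : b < 1) (hb3 : 1/3 ≤ b) (hab : a * (1 + b) ≤ 1 - b) :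
    X + 2 * Y ≤ κ - 2 * B * lk - 3 * B * ll := by
  have h1 : (1-b) * ℓ ≤ a * κ - B * lk - B * ll := by nlinarith
  have hb0 : 0 < 1 - b := by linarith
  have hBk : 0 ≤ B * lk := mul_nonneg hB hlk
  have hBl : 0 ≤ B * ll := mul_nonneg hB hll
  have h2 : (1-b) * (X + 2 * Y) ≤ (1-b) * (a*κ - B*lk + 2*(b*ℓ - B*ll)) :=
    mul_le_mul_of_nonneg_left (by linarith) hb0.le
  have h3 : (1-b) * (a*κ - B*lk + 2*(b*ℓ - B*ll)) ≤
      (1-b)*a*κ - (1-b)*(B*lk) - 2*(1-b)*(B*ll) + 2*b*(a*κ - B*lk - B*ll) := by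
    have : 2 * b * ((1-b)*ℓ) ≤ 2 * b * (a*κ - B*lk - B*ll) :=
      mul_le_mul_of_nonneg_left h1 (by linarith)
    nlinarith
  have h4 : (1-b)*a*κ - (1-b)*(B*lk) - 2*(1-b)*(B*ll) + 2*b*(a*κ - B*lk - B*ll)
      = a*(1+b)*κ - (1+b)*(B*lk) - 2*(B*ll) := by ring
  have h5 : a*(1+b)*κ - (1+b)*(B*lk) - 2*(B*ll) ≤ (1-b) * (κ - 2 * B * lk - 3 * B * ll) := by
    have k1 : a*(1+b)*κ ≤ (1-b)*κ := mul_le_mul_of_nonneg_right hab hκ
    have k2 : 2*(1-b)*(B*lk) ≤ (1+b)*(B*lk) := mul_le_mul_of_nonneg_right (by linarith) hBk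
    have k3 : 3*(1-b)*(B*ll) ≤ 2*(B*ll) := mul_le_mul_of_nonneg_right (by linarith) hBl
    nlinarith
  have h6 : (1-b) * (X + 2 * Y) ≤ (1-b) * (κ - 2 * B * lk - 3 * B * ll) :=
    h2.trans (h3.trans (h4.le.trans h5))
  exact le_of_mul_le_mul_left h6 hb0

end Pool.Agent.Helper667_Sidon
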