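import Mathlib

namespace Pool.Agent.Helper667_Sidon

/-- primes in `(16^t, 16^(t+1)]`. -/
def Q (t : ℕ) : Finset ℕ := (Finset.Ioc (16^t) (16^(t+1))).filter Nat.Prime

theorem primeCounting_le_add (t : ℕ) :
    Nat.primeCounting (16^(t+1)) ≤ Nat.primeCounting (16^t) + (Q t).card := by
  unfold Nat.primeCounting Nat.primeCounting'
  rw [Nat.count_eq_card_filter_range, Nat.count_eq_card_filter_range]
  refine le_trans (Finset.card_le_card ?_) (Finset.card_union_le _ _)
  intro p hp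
  rw [Finset.mem_filter, Finset.mem_range] at hp
  rw [Finset.mem_union, Finset.mem_filter, Finset.mem_range]
  by_cases h : p < 16^t + 1
  · left; exact ⟨h, hp.2⟩
  · right
    rw [Q, Finset.mem_filter, Finset.mem_Ioc]
    exact ⟨⟨by omega, by omega⟩, hp.2⟩

theorem pi_upper (t : ℕ) (ht : 1 ≤ t) :
    (Nat.primeCounting (16^t) : ℝ) ≤ 16^t / t + 4^t := by
  have h1 : (1:ℝ) < 16^t := one_lt_pow₀ (by norm_num) (by omega)
  have h := Chebyshev.pi_le_log4_mul_div h1
  have e1 : ⌊(16:ℝ)^t⌋₊ = 16^t := by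
    have : ((16:ℝ)^t) = ((16^t : ℕ) : ℝ) := by push_cast; ring
    rw [this, Nat.floor_natCast]
  have e2 : √((16:ℝ)^t) = 4^t := by
    have : (16:ℝ)^t = (4^t)^2 := by rw [← pow_mul, mul_comm, pow_mul]; norm_num
    rw [this, Real.sqrt_sq (by positivity)]
  rw [e1, e2, Real.log_pow] at h
  refine h.trans (le_of_eq ?_)
  have hl : Real.log 4 ≠ 0 := (Real.log_pos (by norm_num)).ne'
  have ht' : (t:ℝ) ≠ 0 := by exact_mod_cast (by omega : t ≠ 0)
  field_simp

theorem pi_lower (t : ℕ) :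
    4 * 16^t / (t + 1) - 2 ≤ (Nat.primeCounting (16^(t+1)) : ℝ) := by
  have h := Chebyshev.pi_ge (16^(t+1))
  refine le_trans ?_ h
  push_cast
  have hl2 : 0 < Real.log 2 := Real.log_pos (by norm_num)
  have e16 : Real.log 16 = 4 * Real.log 2 := by
    have : (16:ℝ) = 2^4 := by norm_num
    rw [this, Real.log_pow]; norm_num
  have e1 : Real.log ((16:ℝ)^(t+1)) = 4 * (t+1) * Real.log 2 := by
    rw [Real.log_pow, e16]; push_cast; ring
  have e2 : Real.log ((16:ℝ)^(t+1) + 1) ≤ 2 * (4 * (t+1) * Real.log 2) := by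
    rw [← e1, ← Nat.cast_two, ← Real.log_pow]
    apply Real.log_le_log (by positivity)
    have : (1:ℝ) ≤ 16^(t+1) := one_le_pow₀ (by norm_num)
    have : (2:ℝ) ≤ 16^(t+1) := by
      calc (2:ℝ) ≤ 16^1 := by norm_num
        _ ≤ 16^(t+1) := pow_le_pow_right₀ (by norm_num) (by omega)
    nlinarith
  rw [e1, le_div_iff₀ (by positivity)]
  have e3 : (4 * (16:ℝ)^t / (t + 1) - 2) * (4 * (t+1) * Real.log 2)
    = 16^(t+1) * Real.log 2 - 2 * (4 * (t+1) * Real.log 2) := by
    have : (t:ℝ) + 1 ≠ 0 := by positivity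
    field_simp
    ring
  rw [e3]
  linarith

theorem card_Q (t : ℕ) (ht : 3 ≤ t) : (16:ℝ)^t / t ≤ (Q t).card := by
  have h1 : (Nat.primeCounting (16^(t+1)) : ℝ) ≤ Nat.primeCounting (16^t) + (Q t).card := by
    exact_mod_cast primeCounting_le_add t
  have h2 := pi_upper t (by omega)
  have h3 := pi_lower t
  have ht' : (0:ℝ) < t := by exact_mod_cast (by omega : 0 < t)
  have ht3 : (3:ℝ) ≤ t := by exact_mod_cast ht
  have h4 : 3 * (16:ℝ)^t / t ≤ 4 * 16^t / (t+1) := by
    rw [div_le_div_iff₀ ht' (by positivity)]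
    have : (0:ℝ) < 16^t := by positivity
    nlinarith
  have h5 : (4:ℝ)^t + 2 ≤ 16^t / t := by
    rw [le_div_iff₀ ht']
    have e : (16:ℝ)^t = 4^t * 4^t := by rw [← mul_pow]; norm_num
    rw [e]
    have h6 : 2 * t ≤ 4^t := by
      clear * - ht
      induction t with
      | zero => simp
      | succ n ih =>
        rcases Nat.lt_or_ge n 3 with h | h
        · interval_cases n <;> norm_num
        · have := ih h
          rw [pow_succ]; omega
    have h6' : 2 * (t:ℝ) ≤ 4^t := by exact_mod_cast h6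
    have h7 : (2:ℝ) ≤ 4^t := by linarith
    nlinarith
  have e : 3 * (16:ℝ)^t / t = 3 * (16^t / t) := by ring
  rw [e] at h4
  linarith

/-- A subset of `Q t` of half the size. -/
theorem exists_half (t : ℕ) : ∃ H ⊆ Q t, H.card = (Q t).card / 2 :=
  Finset.exists_subset_card_eq (Nat.div_le_self _ _)

/-- A fixed half of `Q t`. -/
noncomputable def H (t : ℕ) : Finset ℕ := (exists_half t).choose

theorem H_sub (t : ℕ) : H t ⊆ Q t := (exists_half t).choose_spec.1
theorem H_card (t : ℕ) : (H t).card = (Q t).card / 2 := (exists_half t).choose_spec.2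

theorem H_card_real (t : ℕ) : ((Q t).card : ℝ) / 2 - 1 / 2 ≤ (H t).card := by
  rw [H_card]
  have : (Q t).card ≤ 2 * ((Q t).card / 2) + 1 := by omega
  have : ((Q t).card : ℝ) ≤ 2 * (((Q t).card / 2 : ℕ) : ℝ) + 1 := by exact_mod_cast this
  linarith

theorem sdiff_card_real (t : ℕ) : ((Q t).card : ℝ) / 2 - 1/2 ≤ (Q t \ H t).card := by
  rw [Finset.card_sdiff_of_subset (H_sub t), H_card]
  have : (Q t).card ≤ 2 * ((Q t).card - (Q t).card / 2) + 1 := by omega
  have : ((Q t).card : ℝ) ≤ 2 * (((Q t).card - (Q t).card / 2 : ℕ) : ℝ) + 1 := by exact_mod_cast this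
  linarith

theorem mem_Q {t p : ℕ} (h : p ∈ Q t) : p.Prime ∧ 16^t < p ∧ p ≤ 16^(t+1) := by
  rw [Q, Finset.mem_filter, Finset.mem_Ioc] at h
  tauto

theorem odd_of_mem_Q {t p : ℕ} (h : p ∈ Q t) (ht : 1 ≤ t) : p % 2 = 1 := by
  obtain ⟨h1, h2, _⟩ := mem_Q h
  rcases h1.eq_two_or_odd with h3 | h3
  · exfalso
    have : 16^1 ≤ 16^t := Nat.pow_le_pow_right (by norm_num) ht
    omega
  · exact h3

theorem Q_disj {s t : ℕ} (h : s ≠ t) : Disjoint (Q s) (Q t) := by
  rw [Finset.disjoint_left]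
  intro p hp hp'
  obtain ⟨_, h2, h3⟩ := mem_Q hp
  obtain ⟨_, h5, h6⟩ := mem_Q hp'
  rcases Nat.lt_or_gt_of_ne h with hlt | hlt
  · have : 16^(s+1) ≤ 16^t := Nat.pow_le_pow_right (by norm_num) hlt
    omega
  · have : 16^(t+1) ≤ 16^s := Nat.pow_le_pow_right (by norm_num) hlt
    omega

end Pool.Agent.Helper667_Sidon
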