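import Pool.Agent.Helper667_Sidon.Compact
import Pool.Agent.Helper667_Sidon.Primes
import Pool.Agent.Helper667_Sidon.Labels

namespace Pool.Agent.Helper667_Sidon

open Real

/-- special scales -/
def spec (n : ℕ) : Prop := ∃ s : ℕ, n = 4^s

open scoped Classical in
/-- target exponent at scale `n` -/
noncomputable def aa (α : ℝ) (n : ℕ) : ℝ := if spec n then (1-α)/(1+α) else α

noncomputable def ff (α : ℝ) (n : ℕ) : ℝ := aa α n * (60 * n) - (9/10) * Real.logb 2 (60 * n)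

noncomputable def mm (α : ℝ) (n : ℕ) : ℕ := ⌊ff α n / 4⌋₊

open scoped Classical in
noncomputable def PP (α : ℝ) (n : ℕ) : Finset ℕ :=
  if spec n then Q (mm α n - 1) \ H (mm α n - 1) else H (mm α n - 1)

theorem PP_sub (α : ℝ) (n : ℕ) : PP α n ⊆ Q (mm α n - 1) := by
  unfold PP
  split_ifs
  · exact Finset.sdiff_subset
  · exact H_sub _

theorem alpha_facts {α : ℝ} (h1 : 1/3 ≤ α) (h2 : α ≤ √2 - 1) :
    α * (1 + α) ≤ 1 - α ∧ α ≤ (1-α)/(1+α) ∧ (1-α)/(1+α) ≤ 1/2 ∧ α < 1/2 := by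
  have hs : √2 ^ 2 = 2 := Real.sq_sqrt (by norm_num)
  have h0 : 0 < 1 + α := by linarith
  have hsq : (1 + α)^2 ≤ 2 := by
    rw [← hs]; gcongr; linarith
  have h3 : α * (1 + α) ≤ 1 - α := by nlinarith
  refine ⟨h3, ?_, ?_, ?_⟩
  · rw [le_div_iff₀ h0]; exact h3
  · rw [div_le_iff₀ h0]; linarith
  · nlinarith

theorem aa_bounds {α : ℝ} (h1 : 1/3 ≤ α) (h2 : α ≤ √2 - 1) (n : ℕ) :
    α ≤ aa α n ∧ aa α n ≤ 1/2 := by
  obtain ⟨_, h4, h5, h6⟩ := alpha_facts h1 h2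
  unfold aa
  split_ifs
  · exact ⟨h4, h5⟩
  · exact ⟨le_rfl, h6.le⟩

theorem logb_nonneg' {n : ℕ} (hn : 1 ≤ n) : 0 ≤ Real.logb 2 (60 * n) := by
  apply Real.logb_nonneg (by norm_num)
  have : (1:ℝ) ≤ n := by exact_mod_cast hn
  linarith

theorem logb_le {n : ℕ} (hn : 1 ≤ n) : Real.logb 2 (60 * n) ≤ 6 + n := by
  rw [Real.logb_le_iff_le_rpow (by norm_num) (by positivity)]
  have h1 : (2:ℝ)^((6:ℝ) + n) = 64 * 2^n := by
    rw [Real.rpow_add (by norm_num), Real.rpow_natCast]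
    norm_num
  rw [h1]
  have h2 : (n:ℝ) ≤ 2^n := by exact_mod_cast (Nat.lt_two_pow_self (n := n)).le
  have h3 : (0:ℝ) ≤ n := by positivity
  linarith

theorem ff_le {α : ℝ} (h1 : 1/3 ≤ α) (h2 : α ≤ √2 - 1) {n : ℕ} (hn : 1 ≤ n) :
    ff α n ≤ 30 * n := by
  have := (aa_bounds h1 h2 n).2
  have := logb_nonneg' hn
  have : (0:ℝ) ≤ n := by positivity
  unfold ff
  nlinarith

theorem ff_ge {α : ℝ} (h1 : 1/3 ≤ α) (h2 : α ≤ √2 - 1) {n : ℕ} (hn : 2 ≤ n) :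
    20 ≤ ff α n := by
  have := (aa_bounds h1 h2 n).1
  have := logb_le (by omega : 1 ≤ n)
  have : (2:ℝ) ≤ n := by exact_mod_cast hn
  unfold ff
  nlinarith

theorem mm_ge {α : ℝ} (h1 : 1/3 ≤ α) (h2 : α ≤ √2 - 1) {n : ℕ} (hn : 2 ≤ n) :
    5 ≤ mm α n := by
  have := ff_ge h1 h2 hn
  unfold mm
  apply Nat.le_floor
  push_cast; linarith

theorem mm_le_ff {α : ℝ} (h1 : 1/3 ≤ α) (h2 : α ≤ √2 - 1) {n : ℕ} (hn : 2 ≤ n) :
    4 * (mm α n : ℝ) ≤ ff α n := by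
  have := ff_ge h1 h2 hn
  have := Nat.floor_le (a := ff α n / 4) (by linarith)
  unfold mm
  linarith

theorem ff_lt_mm {α : ℝ} (n : ℕ) : ff α n < 4 * (mm α n : ℝ) + 4 := by
  have := Nat.lt_floor_add_one (ff α n / 4)
  unfold mm
  linarith

theorem mm_le {α : ℝ} (h1 : 1/3 ≤ α) (h2 : α ≤ √2 - 1) {n : ℕ} (hn : 2 ≤ n) :
    8 * mm α n ≤ 60 * n := by
  have := mm_le_ff h1 h2 hn
  have := ff_le h1 h2 (by omega : 1 ≤ n)
  have h3 : (8:ℝ) * mm α n ≤ 60 * n := by linarith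
  exact_mod_cast h3

theorem mm_lt {α : ℝ} (h1 : 1/3 ≤ α) (h2 : α ≤ √2 - 1) {n n' : ℕ} (hn : 2 ≤ n) (h : n < n')
    (ha : aa α n = aa α n') : mm α n < mm α n' := by
  have hf : ff α n + 4 ≤ ff α n' := by
    unfold ff
    rw [← ha]
    have h3 := (aa_bounds h1 h2 n).1
    obtain ⟨d, hd⟩ : ∃ d, n' = n + d := ⟨n' - n, by omega⟩
    have hd1 : 1 ≤ d := by omega
    have hdR : (1:ℝ) ≤ d := by exact_mod_cast hd1
    have hnR : (2:ℝ) ≤ n := by exact_mod_cast hn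
    have hlog : Real.logb 2 (60 * n') ≤ Real.logb 2 (60 * n) + d := by
      have e1 : Real.logb 2 (60 * n) + d = Real.logb 2 (60 * n * 2^d) := by
        rw [Real.logb_mul (x := 60 * (n:ℝ)) (y := 2^d) (by positivity) (by positivity),
          Real.logb_pow, Real.logb_self_eq_one (by norm_num)]
        ring
      rw [e1]
      apply Real.logb_le_logb_of_le (by norm_num) (by rw [hd]; positivity)
      have h4 : (d:ℝ) + 1 ≤ 2^d := by
        exact_mod_cast (Nat.lt_two_pow_self (n := d))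
      rw [hd]; push_cast
      have : (60:ℝ) * (n + d) ≤ 60 * n * (d+1) := by nlinarith
      have : 60 * (n:ℝ) * (d+1) ≤ 60 * n * 2^d := by gcongr
      linarith
    have : (n':ℝ) = n + d := by rw [hd]; push_cast; ring
    rw [this] at hlog ⊢
    nlinarith
  have h5 : (mm α n : ℝ) + 1 ≤ ff α n' / 4 := by
    have := mm_le_ff h1 h2 hn
    linarith
  have h6 : mm α n + 1 ≤ mm α n' := by
    conv_rhs => unfold mm
    apply Nat.le_floor
    push_cast; exact h5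
  omega

theorem PP_disj {α : ℝ} (h1 : 1/3 ≤ α) (h2 : α ≤ √2 - 1) {n n' : ℕ} (hn : 2 ≤ n) (h : n < n') :
    Disjoint (PP α n) (PP α n') := by
  classical
  by_cases hm : mm α n = mm α n'
  · -- one special and one normal
    have hne : aa α n ≠ aa α n' := fun h3 => (mm_lt h1 h2 hn h h3).ne hm
    unfold PP
    rw [← hm]
    by_cases hs : spec n <;> by_cases hs' : spec n'
    · exact absurd (by simp [aa, hs, hs']) hne
    · simp only [hs, hs', if_true, if_false]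
      exact Finset.sdiff_disjoint
    · simp only [hs, hs', if_true, if_false]
      exact Finset.disjoint_sdiff
    · exact absurd (by simp [aa, hs, hs']) hne
  · have g1 := mm_ge h1 h2 hn
    have g2 := mm_ge h1 h2 (by omega : 2 ≤ n')
    exact Finset.disjoint_of_subset_left (PP_sub α n)
      (Finset.disjoint_of_subset_right (PP_sub α n') (Q_disj (by omega)))

/-- The data at shift `j0`. -/
noncomputable def dat (α : ℝ) (h1 : 1/3 ≤ α) (h2 : α ≤ √2 - 1) (j0 : ℕ) (hj0 : 2 ≤ j0) :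
    Scales where
  P j := PP α (j + j0)
  k j := 60 * (j + j0)
  u j := 4 * mm α (j + j0)
  w j := wid (j + j0)
  L j := lab (j + j0)
  prime j p hp := (mem_Q (PP_sub _ _ hp)).1
  odd j p hp := odd_of_mem_Q (PP_sub _ _ hp) (by
    have := mm_ge h1 h2 (by omega : 2 ≤ j + j0)
    omega)
  le j p hp := by
    have h := (mem_Q (PP_sub _ _ hp)).2.2
    have := mm_ge h1 h2 (by omega : 2 ≤ j + j0)
    have e : mm α (j + j0) - 1 + 1 = mm α (j + j0) := by omega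
    rw [e] at h
    rw [pow_mul]
    exact h
  disj i j hij := by
    rcases Nat.lt_or_gt_of_ne hij with h | h
    · exact PP_disj h1 h2 (by omega) (by omega)
    · exact (PP_disj h1 h2 (by omega) (by omega)).symm
  huk j := by
    have := mm_le h1 h2 (by omega : 2 ≤ j + j0)
    omega
  kmono i j h := by
    show 60 * (i + j0) ≤ 60 * (j + j0)
    omega
  wmono i j h := wid_mono (by omega)
  hS i j h := by
    have hw : wid (i + j0) ≤ wid (j + j0) := wid_mono (by omega)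
    calc 4 * (2^(60 * (i + j0)) * 3^(wid (i + j0)))
        = 2^(60 * (i + j0) + 2) * 3^(wid (i + j0)) := by rw [pow_add]; ring
      _ ≤ 2^(60 * (j + j0)) * 3^(wid (j + j0)) := by
          apply Nat.mul_le_mul
          · exact Nat.pow_le_pow_right (by norm_num) (by omega)
          · exact Nat.pow_le_pow_right (by norm_num) hw
  hL i j h := lab_ne (by omega) (by omega)

theorem dang_bound {α : ℝ} (h1 : 1/3 ≤ α) (h2 : α ≤ √2 - 1) {n n' : ℕ} (hn' : 2 ≤ n')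
    (h : n' < n) (hd : 60 * n' + 1 ≤ 4 * mm α n + 4 * mm α n') :
    (4 * (mm α n : ℝ)) + 2 * (4 * (mm α n' : ℝ)) ≤
      60 * n - 2 * (9/10) * Real.logb 2 (60 * n) - 3 * (9/10) * Real.logb 2 (60 * n') := by
  obtain ⟨f1, f2, f3, f4⟩ := alpha_facts h1 h2
  have hX := mm_le_ff h1 h2 (by omega : 2 ≤ n)
  have hY := mm_le_ff h1 h2 hn'
  unfold ff at hX hY
  have hlk := logb_nonneg' (by omega : 1 ≤ n)
  have hll := logb_nonneg' (by omega : 1 ≤ n')
  have hd' : (60 * (n':ℝ)) ≤ 4 * (mm α n : ℝ) + 4 * (mm α n' : ℝ) := by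
    have : ((60 * n' + 1 : ℕ) : ℝ) ≤ ((4 * mm α n + 4 * mm α n' : ℕ) : ℝ) := by exact_mod_cast hd
    push_cast at this
    linarith
  have h0 : 0 < 1 + α := by linarith
  by_cases hs : spec n ∧ spec n'
  · obtain ⟨⟨s, hs⟩, ⟨s', hs'⟩⟩ := hs
    have hss : s' < s := by
      by_contra hcon
      have : 4^s ≤ 4^s' := Nat.pow_le_pow_right (by norm_num) (by omega)
      omega
    have h4 : 4 * n' ≤ n := by
      rw [hs, hs', ← pow_succ']
      exact Nat.pow_le_pow_right (by norm_num) (by omega)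
    have h4R : 4 * (n':ℝ) ≤ n := by exact_mod_cast h4
    have a1 := (aa_bounds h1 h2 n).2
    have a2 := (aa_bounds h1 h2 n').2
    have l1 := logb_le (by omega : 1 ≤ n)
    have l2 : Real.logb 2 (60 * n') ≤ Real.logb 2 (60 * n) := by
      apply Real.logb_le_logb_of_le (by norm_num)
      · have : (2:ℝ) ≤ n' := by exact_mod_cast hn'
        positivity
      · have : (n':ℝ) ≤ n := by exact_mod_cast h.le
        linarith
    have hnR : (8:ℝ) ≤ n := by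
      have : (2:ℝ) ≤ n' := by exact_mod_cast hn'
      linarith
    have hn'R : (0:ℝ) ≤ n' := by positivity
    have m1 : aa α n * (60 * n) ≤ 1/2 * (60 * n) := by gcongr
    have m2 : aa α n' * (60 * n') ≤ 1/2 * (60 * n') := by gcongr
    linarith
  · have hb : aa α n * (1 + aa α n') ≤ 1 - aa α n' := by
      unfold aa
      by_cases hs1 : spec n <;> by_cases hs2 : spec n'
      · exact absurd ⟨hs1, hs2⟩ hs
      · simp only [hs1, hs2, if_true, if_false]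
        rw [div_mul_cancel₀ _ h0.ne']
      · simp only [hs1, hs2, if_true, if_false]
        have e1 : 1 + (1-α)/(1+α) = 2 / (1+α) := by field_simp; ring
        have e2 : 1 - (1-α)/(1+α) = 2 * α / (1+α) := by field_simp; ring
        rw [e1, e2]
        apply le_of_eq; ring
      · simp only [hs1, hs2, if_false]
        exact f1
    have a2 := aa_bounds h1 h2 n'
    exact exponent_bound (κ := 60 * n) (ℓ := 60 * n') (a := aa α n) (b := aa α n')
      (B := 9/10) (by norm_num) hlk hll hX hY hd' (by positivity)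
      (by linarith [a2.2]) (by linarith [a2.1]) hb

theorem PP_card_le {α : ℝ} (h1 : 1/3 ≤ α) (h2 : α ≤ √2 - 1) {n : ℕ} (hn : 2 ≤ n) :
    ((PP α n).card : ℝ) ≤ 2^(4 * mm α n) := by
  have hsub : PP α n ⊆ Finset.Ioc 0 (2^(4 * mm α n)) := by
    intro p hp
    have h := mem_Q (PP_sub _ _ hp)
    have := mm_ge h1 h2 hn
    have e : mm α n - 1 + 1 = mm α n := by omega
    rw [e] at h
    rw [Finset.mem_Ioc, pow_mul]
    exact ⟨h.1.pos, h.2.2⟩
  have := Finset.card_le_card hsub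
  rw [Nat.card_Ioc] at this
  exact_mod_cast this

theorem term_bound {α : ℝ} (h1 : 1/3 ≤ α) (h2 : α ≤ √2 - 1) {n n' : ℕ} (hn' : 2 ≤ n')
    (h : n' < n) (hd : 60 * n' + 1 ≤ 4 * mm α n + 4 * mm α n') :
    ((PP α n').card : ℝ) * 2^(4 * mm α n + 4 * mm α n' + 1) * 3^(wid n') / 2^(60 * n) ≤
      (n':ℝ)^(-(6/5:ℝ)) * (n:ℝ)^(-(13/10:ℝ)) := by
  have hn'R : (2:ℝ) ≤ n' := by exact_mod_cast hn'
  have hnR : (2:ℝ) ≤ n := by exact_mod_cast (by omega : 2 ≤ n)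
  have hn'pos : (0:ℝ) < n' := by linarith
  have hnpos : (0:ℝ) < n := by linarith
  have hc := PP_card_le h1 h2 hn'
  have hw : (3:ℝ)^(wid n') ≤ 9 * (n':ℝ)^2 := by exact_mod_cast pow_wid_le (by omega : 1 ≤ n')
  have hb := dang_bound h1 h2 hn' h hd
  have hexp : (2:ℝ)^(4 * mm α n + 2 * (4 * mm α n')) / 2^(60 * n) ≤
      (60 * (n:ℝ))^(-(9/5:ℝ)) * (60 * (n':ℝ))^(-(27/10:ℝ)) := by
    have e1 : (2:ℝ)^(4 * mm α n + 2 * (4 * mm α n')) / 2^(60 * n)
        = (2:ℝ)^(((4 * (mm α n : ℝ)) + 2 * (4 * (mm α n' : ℝ))) - 60 * n) := by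
      rw [Real.rpow_sub (by norm_num)]
      congr 1
      · rw [← Real.rpow_natCast]; push_cast; ring_nf
      · rw [← Real.rpow_natCast]; push_cast; ring_nf
    have e2 : (60 * (n:ℝ))^(-(9/5:ℝ)) * (60 * (n':ℝ))^(-(27/10:ℝ)) =
        (2:ℝ)^(- 2 * (9/10) * Real.logb 2 (60 * n) - 3 * (9/10) * Real.logb 2 (60 * n')) := by
      have q1 : (60 * (n:ℝ)) = (2:ℝ)^(Real.logb 2 (60 * n)) :=
        (Real.rpow_logb (by norm_num) (by norm_num) (by positivity)).symm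
      have q2 : (60 * (n':ℝ)) = (2:ℝ)^(Real.logb 2 (60 * n')) :=
        (Real.rpow_logb (by norm_num) (by norm_num) (by positivity)).symm
      conv_lhs => rw [q1, q2]
      rw [← Real.rpow_mul (by norm_num), ← Real.rpow_mul (by norm_num),
        ← Real.rpow_add (by norm_num)]
      congr 1
      ring
    rw [e1, e2]
    apply Real.rpow_le_rpow_of_exponent_le (by norm_num)
    linarith
  have hstep : ((PP α n').card : ℝ) * 2^(4 * mm α n + 4 * mm α n' + 1) * 3^(wid n') / 2^(60 * n) ≤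
      18 * (n':ℝ)^2 * ((60 * (n:ℝ))^(-(9/5:ℝ)) * (60 * (n':ℝ))^(-(27/10:ℝ))) := by
    calc ((PP α n').card : ℝ) * 2^(4 * mm α n + 4 * mm α n' + 1) * 3^(wid n') / 2^(60 * n)
        ≤ 2^(4 * mm α n') * 2^(4 * mm α n + 4 * mm α n' + 1) * (9 * (n':ℝ)^2) / 2^(60 * n) := by
          gcongr
      _ = 18 * (n':ℝ)^2 * ((2:ℝ)^(4 * mm α n + 2 * (4 * mm α n')) / 2^(60 * n)) := by
          have : (2:ℝ)^(4 * mm α n') * 2^(4 * mm α n + 4 * mm α n' + 1) =
            2 * 2^(4 * mm α n + 2 * (4 * mm α n')) := by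
            rw [← pow_add, ← pow_succ']; congr 1; ring
          rw [this]; ring
      _ ≤ _ := by gcongr
  refine hstep.trans ?_
  have r1 : (60 * (n:ℝ))^(-(9/5:ℝ)) ≤ (1/60) * (n:ℝ)^(-(9/5:ℝ)) := by
    rw [Real.mul_rpow (by norm_num) hnpos.le]
    gcongr
    have : (60:ℝ)^(-(9/5:ℝ)) ≤ 60^(-1:ℝ) :=
      Real.rpow_le_rpow_of_exponent_le (by norm_num) (by norm_num)
    rw [Real.rpow_neg_one] at this
    linarith
  have r2 : (60 * (n':ℝ))^(-(27/10:ℝ)) ≤ (n':ℝ)^(-(27/10:ℝ)) := by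
    apply Real.rpow_le_rpow_of_nonpos hn'pos (by linarith) (by norm_num)
  have r3 : (n:ℝ)^(-(9/5:ℝ)) = (n:ℝ)^(-(13/10:ℝ)) * (n:ℝ)^(-(1/2:ℝ)) := by
    rw [← Real.rpow_add hnpos]; norm_num
  have r4 : (n:ℝ)^(-(1/2:ℝ)) ≤ (n':ℝ)^(-(1/2:ℝ)) := by
    apply Real.rpow_le_rpow_of_nonpos hn'pos (by exact_mod_cast h.le) (by norm_num)
  have r5 : (n':ℝ)^2 * (n':ℝ)^(-(27/10:ℝ)) * (n':ℝ)^(-(1/2:ℝ)) = (n':ℝ)^(-(6/5:ℝ)) := by
    rw [← Real.rpow_natCast, ← Real.rpow_add hn'pos, ← Real.rpow_add hn'pos]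
    norm_num
  calc 18 * (n':ℝ)^2 * ((60 * (n:ℝ))^(-(9/5:ℝ)) * (60 * (n':ℝ))^(-(27/10:ℝ)))
      ≤ 18 * (n':ℝ)^2 * (((1/60) * (n:ℝ)^(-(9/5:ℝ))) * (n':ℝ)^(-(27/10:ℝ))) := by gcongr
    _ = (18/60) * ((n':ℝ)^2 * (n':ℝ)^(-(27/10:ℝ)) * (n:ℝ)^(-(1/2:ℝ))) * (n:ℝ)^(-(13/10:ℝ)) := by
        rw [r3]; ring
    _ ≤ (18/60) * ((n':ℝ)^2 * (n':ℝ)^(-(27/10:ℝ)) * (n':ℝ)^(-(1/2:ℝ))) * (n:ℝ)^(-(13/10:ℝ)) := by
        gcongr
    _ = (18/60) * (n':ℝ)^(-(6/5:ℝ)) * (n:ℝ)^(-(13/10:ℝ)) := by rw [r5]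
    _ ≤ 1 * (n':ℝ)^(-(6/5:ℝ)) * (n:ℝ)^(-(13/10:ℝ)) := by
        gcongr
        norm_num
    _ = _ := by ring

end Pool.Agent.Helper667_Sidon
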